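import Pool.Agent.J4.H71.TM.Defs

/-! Transport of curve classes and of the pullback relation. -/

set_option autoImplicit false
set_option maxHeartbeats 4000000

open Set Topology Filter
open scoped OnePoint

namespace Pool.Agent.J4.H71.TM

lemma isSCC_image (h : Sph ≃ₜ Sph) {γ : Set Sph} (hγ : IsSCC γ) : IsSCC (h '' γ) := by
  obtain ⟨f, hf, hi, rfl⟩ := hγ
  exact ⟨h ∘ f, h.continuous.comp hf, h.injective.comp hi, range_comp h f⟩

lemma image_compl' (h : Sph ≃ₜ Sph) (γ : Set Sph) : h '' γᶜ = (h '' γ)ᶜ :=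
  image_compl_eq h.bijective

lemma comp_image_homeo (h : Sph ≃ₜ Sph) (S : Set Sph) {x : Sph} (hx : x ∈ S) :
    h '' connectedComponentIn S x = connectedComponentIn (h '' S) (h x) :=
  h.image_connectedComponentIn hx

lemma essential_image (h : Sph ≃ₜ Sph) {P γ : Set Sph} (hγ : Essential P γ) :
    Essential (h '' P) (h '' γ) := by
  intro x hx
  have hx' : h.symm x ∉ γ := fun h1 => hx ⟨_, h1, h.apply_symm_apply x⟩
  obtain ⟨p, hp, q, hq, hne, h1, h2⟩ := hγ _ hx'
  have key := comp_image_homeo h γᶜ hx'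
  rw [image_compl', h.apply_symm_apply] at key
  refine ⟨h p, ⟨p, hp, rfl⟩, h q, ⟨q, hq, rfl⟩, fun h3 => hne (h.injective h3), ?_, ?_⟩
  · rw [← key]; exact ⟨p, h1, rfl⟩
  · rw [← key]; exact ⟨q, h2, rfl⟩

lemma symm_image_image (h : Sph ≃ₜ Sph) (S : Set Sph) : h.symm '' (h '' S) = S := by
  rw [← image_comp]
  have : (h.symm : Sph → Sph) ∘ h = id := by funext x; exact h.symm_apply_apply x
  rw [this, image_id]

lemma image_symm_image (h : Sph ≃ₜ Sph) (S : Set Sph) : h '' (h.symm '' S) = S := by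
  rw [← image_comp]
  have : (h : Sph → Sph) ∘ h.symm = id := by funext x; exact h.apply_symm_apply x
  rw [this, image_id]

lemma essential_image_iff (h : Sph ≃ₜ Sph) {P γ : Set Sph} :
    Essential (h '' P) (h '' γ) ↔ Essential P γ := by
  refine ⟨fun h1 => ?_, essential_image h⟩
  have := essential_image h.symm h1
  rwa [symm_image_image, symm_image_image] at this

lemma disjoint_image' (h : Sph ≃ₜ Sph) {P γ : Set Sph} :
    Disjoint (h '' γ) (h '' P) ↔ Disjoint γ P := disjoint_image_iff h.injective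

lemma isSCC_image_iff (h : Sph ≃ₜ Sph) {γ : Set Sph} : IsSCC (h '' γ) ↔ IsSCC γ := by
  refine ⟨fun h1 => ?_, isSCC_image h⟩
  have := isSCC_image h.symm h1
  rwa [symm_image_image] at this

lemma isEss_image (h : Sph ≃ₜ Sph) {P γ : Set Sph} (hγ : IsEssCurve P γ) :
    IsEssCurve (h '' P) (h '' γ) :=
  ⟨isSCC_image h hγ.1, (disjoint_image' h).2 hγ.2.1, essential_image h hγ.2.2⟩

lemma isotopic_image (h : Sph ≃ₜ Sph) {P γ γ' : Set Sph} (hγ : CurveIsotopic P γ γ') :
    CurveIsotopic (h '' P) (h '' γ) (h '' γ') := by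
  obtain ⟨H, h1, h2, h3, rfl, rfl⟩ := hγ
  refine ⟨fun t z => h (H t z), h.continuous.comp h1, fun t => h.injective.comp (h2 t), ?_,
    range_comp h _, range_comp h _⟩
  rintro t z ⟨p, hp, hpz⟩
  rw [h.injective hpz] at hp
  exact h3 t z hp

/-- the map of the classes -/
def cmap (h : Sph ≃ₜ Sph) (P : Set Sph) : CurveClass P → CurveClass (h '' P) :=
  Option.map (Quot.map (fun γ => ⟨h '' γ.1, isEss_image h γ.2⟩) fun _ _ hh => isotopic_image h hh)

lemma cmap_none (h : Sph ≃ₜ Sph) (P : Set Sph) : cmap h P none = none := rfl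

lemma cmap_some (h : Sph ≃ₜ Sph) (P γ : Set Sph) (hγ : IsEssCurve P γ) :
    cmap h P (some (Quot.mk _ ⟨γ, hγ⟩)) = some (Quot.mk _ ⟨h '' γ, isEss_image h hγ⟩) := rfl

lemma hasClass_cmap (h : Sph ≃ₜ Sph) {P δ : Set Sph} {c : CurveClass P} (hc : HasClass P δ c) :
    HasClass (h '' P) (h '' δ) (cmap h P c) := by
  obtain ⟨h1, h2, h3⟩ := hc
  refine ⟨isSCC_image h h1, (disjoint_image' h).2 h2, ?_⟩
  rcases h3 with ⟨h4, rfl⟩ | ⟨h4, rfl⟩
  · exact Or.inl ⟨isEss_image h h4, rfl⟩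
  · exact Or.inr ⟨fun h5 => h4 ((essential_image_iff h).1 h5), rfl⟩

lemma hasClass_unique {P δ : Set Sph} {c c' : CurveClass P} (h : HasClass P δ c)
    (h' : HasClass P δ c') : c = c' := by
  rcases h.2.2 with ⟨h4, rfl⟩ | ⟨h4, rfl⟩ <;> rcases h'.2.2 with ⟨h5, rfl⟩ | ⟨h5, rfl⟩
  · rfl
  · exact absurd h4.2.2 h5
  · exact absurd h5.2.2 h4
  · rfl

lemma exists_class {P δ : Set Sph} (h : IsSCC δ) (h' : Disjoint δ P) :
    ∃ c, HasClass P δ c := by
  by_cases he : Essential P δ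
  · exact ⟨_, h, h', Or.inl ⟨⟨h, h', he⟩, rfl⟩⟩
  · exact ⟨none, h, h', Or.inr ⟨he, rfl⟩⟩

/-- a non-trivial class has a curve -/
lemma exists_curve {P : Set Sph} {c : CurveClass P} (hc : c ≠ none) : ∃ γ, HasClass P γ c := by
  rcases c with _ | c
  · exact absurd rfl hc
  · induction c using Quot.ind with
    | mk γ => exact ⟨γ.1, γ.2.1, γ.2.2.1, Or.inl ⟨γ.2, rfl⟩⟩

lemma isotopic_refl {P γ : Set Sph} (h1 : IsSCC γ) (h2 : Disjoint γ P) : CurveIsotopic P γ γ := by
  obtain ⟨f, hf, hi, rfl⟩ := h1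
  refine ⟨fun _ z => f z, hf.comp continuous_snd, fun _ => hi, fun _ z hz => ?_, rfl, rfl⟩
  exact Set.disjoint_left.1 h2 (mem_range_self z) hz

lemma isotopic_symm {P γ γ' : Set Sph} (h : CurveIsotopic P γ γ') : CurveIsotopic P γ' γ := by
  obtain ⟨H, h1, h2, h3, rfl, rfl⟩ := h
  refine ⟨fun t => H (unitInterval.symm t), ?_, fun t => h2 _, fun t => h3 _, ?_, ?_⟩
  · exact h1.comp ((unitInterval.continuous_symm.comp continuous_fst).prodMk continuous_snd)
  · simp only [unitInterval.symm_zero]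
  · simp only [unitInterval.symm_one]

lemma exists_cmap (h : Sph ≃ₜ Sph) (P : Set Sph) (c : CurveClass (h '' P)) :
    ∃ c₀, cmap h P c₀ = c := by
  rcases c with _ | c
  · exact ⟨none, rfl⟩
  · induction c using Quot.ind with
    | mk γ =>
      obtain ⟨γ, hγ⟩ := γ
      have h1 : IsEssCurve P (h.symm '' γ) := by
        have := isEss_image h.symm hγ
        rwa [symm_image_image] at this
      refine ⟨some (Quot.mk _ ⟨_, h1⟩), ?_⟩
      rw [cmap_some]
      congr 2
      exact Subtype.ext (image_symm_image h γ)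

/-- isotopic ambient homeomorphisms -/
lemma hasClass_isotopy {P : Set Sph} (h₀ h₁ : Sph ≃ₜ Sph) (hiso : IsotopicRel P h₀ h₁)
    {δ : Set Sph} {c : CurveClass (h₀ '' P)} (hc : HasClass (h₀ '' P) (h₀ '' δ) c) :
    HasClass (h₀ '' P) (h₁ '' δ) c := by
  obtain ⟨H, h1, h2, h3, h4, h5⟩ := hiso
  have hP : h₁ '' P = h₀ '' P := by
    refine image_congr fun p hp => ?_
    have := h5 1 p hp
    rw [h4] at this
    exact this
  obtain ⟨g1, g2, g3⟩ := hc
  have k1 : IsSCC (h₁ '' δ) := (isSCC_image_iff h₁).2 ((isSCC_image_iff h₀).1 g1)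
  have k2 : Disjoint (h₁ '' δ) (h₀ '' P) := by
    rw [← hP, disjoint_image']
    exact (disjoint_image' h₀).1 g2
  have k3 : Essential (h₀ '' P) (h₁ '' δ) ↔ Essential (h₀ '' P) (h₀ '' δ) := by
    rw [essential_image_iff h₀, ← hP, essential_image_iff h₁]
  have k4 : CurveIsotopic (h₀ '' P) (h₀ '' δ) (h₁ '' δ) := by
    obtain ⟨f, hf, hi, hfr⟩ := (isSCC_image_iff h₀).1 g1
    refine ⟨fun t z => H t (f z), h1.comp (continuous_fst.prodMk (hf.comp continuous_snd)),
      fun t => (h2 t).injective.comp hi, ?_, ?_, ?_⟩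
    · rintro t z ⟨p, hp, hpz⟩
      rw [← h5 t p hp] at hpz
      have h6 := (h2 t).injective hpz
      have h7 : f z ∈ δ := hfr ▸ mem_range_self z
      exact Set.disjoint_left.1 ((disjoint_image' h₀).1 g2) h7 (h6 ▸ hp)
    · rw [← hfr, ← range_comp]; exact congrArg (fun g : Sph → Sph => range (g ∘ f)) h3
    · rw [← hfr, ← range_comp]; exact congrArg (fun g : Sph → Sph => range (g ∘ f)) h4
  refine ⟨k1, k2, ?_⟩
  rcases g3 with ⟨g4, rfl⟩ | ⟨g4, rfl⟩
  · refine Or.inl ⟨⟨k1, k2, k3.2 g4.2.2⟩, ?_⟩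
    exact congrArg some (Quot.sound k4)
  · exact Or.inr ⟨fun g5 => g4 (k3.1 g5), rfl⟩

lemma cmap_injective (h : Sph ≃ₜ Sph) (P : Set Sph) : Function.Injective (cmap h P) := by
  have key : ∀ c : CurveClass P, ∀ c' : CurveClass P, cmap h P c = cmap h P c' → c = c' := by
    let inv : CurveClass (h '' P) → CurveClass P := Option.map (Quot.map
      (fun γ => ⟨h.symm '' γ.1, by
        have := isEss_image h.symm γ.2
        rwa [symm_image_image] at this⟩)
      fun a b hh => by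
        have := isotopic_image h.symm hh
        rw [symm_image_image] at this
        exact this)
    have hinv : ∀ c, inv (cmap h P c) = c := by
      intro c
      rcases c with _ | c
      · rfl
      · induction c using Quot.ind with
        | mk γ =>
          show some (Quot.mk _ _) = some (Quot.mk _ _)
          congr 2
          exact Subtype.ext (symm_image_image h γ.1)
    intro c c' hcc
    rw [← hinv c, ← hinv c', hcc]
  exact fun c c' => key c c'

/-- the isomorphism of the classes -/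
noncomputable def cequiv (h : Sph ≃ₜ Sph) (P : Set Sph) : CurveClass P ≃ CurveClass (h '' P) :=
  Equiv.ofBijective (cmap h P) ⟨cmap_injective h P, exists_cmap h P⟩

lemma hasClass_cmap_iff (h : Sph ≃ₜ Sph) {P δ : Set Sph} {c : CurveClass P} :
    HasClass (h '' P) (h '' δ) (cmap h P c) ↔ HasClass P δ c := by
  refine ⟨fun hc => ?_, hasClass_cmap h⟩
  obtain ⟨c', hc'⟩ := exists_class ((isSCC_image_iff h).1 hc.1) ((disjoint_image' h).1 hc.2.1)
  have := hasClass_unique (hasClass_cmap h hc') hc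
  rwa [cmap_injective h P this] at hc'

/-- the pullback relations of `F` and of `G` are isomorphic -/
def PIso (F : Sph → Sph) (P : Set Sph) (G : Sph → Sph) (P' : Set Sph) : Prop :=
  ∃ e : CurveClass P ≃ CurveClass P', ∀ c c', Pullback F P c c' ↔ Pullback G P' (e c) (e c')

lemma PIso.refl (F : Sph → Sph) (P : Set Sph) : PIso F P F P := ⟨Equiv.refl _, fun _ _ => Iff.rfl⟩

lemma PIso.symm {F : Sph → Sph} {P : Set Sph} {G : Sph → Sph} {P' : Set Sph}
    (h : PIso F P G P') : PIso G P' F P := by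
  obtain ⟨e, he⟩ := h
  refine ⟨e.symm, fun c c' => ?_⟩
  rw [he, e.apply_symm_apply, e.apply_symm_apply]

lemma PIso.trans {F : Sph → Sph} {P : Set Sph} {G : Sph → Sph} {P' : Set Sph} {K : Sph → Sph}
    {P'' : Set Sph} (h : PIso F P G P') (h' : PIso G P' K P'') : PIso F P K P'' := by
  obtain ⟨e, he⟩ := h
  obtain ⟨e', he'⟩ := h'
  exact ⟨e.trans e', fun c c' => by rw [he, he']; rfl⟩

/-- Thurston equivalent maps have isomorphic pullback relations -/
theorem piso_of_equiv {F G : Sph → Sph} {P : Set Sph} (h₀ h₁ : Sph ≃ₜ Sph)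
    (hFG : ∀ x, h₀ (F x) = G (h₁ x)) (hiso : IsotopicRel P h₀ h₁) :
    PIso F P G (h₀ '' P) := by
  refine ⟨cequiv h₀ P, fun c c' => ?_⟩
  show Pullback F P c c' ↔ Pullback G (h₀ '' P) (cmap h₀ P c) (cmap h₀ P c')
  have hpre : ∀ γ : Set Sph, h₁ '' (F ⁻¹' γ) = G ⁻¹' (h₀ '' γ) := by
    intro γ
    ext y
    constructor
    · rintro ⟨x, hx, rfl⟩
      exact ⟨F x, hx, hFG x⟩
    · rintro ⟨u, hu, huy⟩
      refine ⟨h₁.symm y, ?_, h₁.apply_symm_apply y⟩
      have h1 := hFG (h₁.symm y)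
      rw [h₁.apply_symm_apply, ← huy] at h1
      show F (h₁.symm y) ∈ γ
      rwa [h₀.injective h1]
  constructor
  · rintro (⟨rfl, rfl⟩ | ⟨hc, γ, δ, hγ, ⟨x, hx, rfl⟩, hδ⟩)
    · exact Or.inl ⟨rfl, rfl⟩
    · refine Or.inr ⟨fun h => hc (cmap_injective h₀ P (h.trans (cmap_none h₀ P).symm)),
        h₀ '' γ, h₁ '' connectedComponentIn (F ⁻¹' γ) x, hasClass_cmap h₀ hγ,
        ⟨h₁ x, ?_, ?_⟩, hasClass_isotopy h₀ h₁ hiso (hasClass_cmap h₀ hδ)⟩
      · rw [← hpre]; exact ⟨x, hx, rfl⟩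
      · rw [← hpre]; exact comp_image_homeo h₁ _ hx
  · rintro (⟨h1, h2⟩ | ⟨hc, γ, δ, hγ, ⟨x, hx, rfl⟩, hδ⟩)
    · exact Or.inl ⟨cmap_injective h₀ P h1, cmap_injective h₀ P h2⟩
    · refine Or.inr ⟨fun h => hc (h ▸ rfl), h₀.symm '' γ,
        h₁.symm '' connectedComponentIn (G ⁻¹' γ) x, ?_, ⟨h₁.symm x, ?_, ?_⟩, ?_⟩
      · rw [← hasClass_cmap_iff h₀, image_symm_image]
        exact hγ
      · have h3 : G ⁻¹' γ = h₁ '' (F ⁻¹' (h₀.symm '' γ)) := by rw [hpre, image_symm_image]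
        rw [h3] at hx
        obtain ⟨y, hy, rfl⟩ := hx
        rw [h₁.symm_apply_apply]
        exact hy
      · rw [comp_image_homeo h₁.symm _ hx]
        congr 1
        rw [← symm_image_image h₁ (F ⁻¹' (h₀.symm '' γ)), hpre, image_symm_image]
      · -- the class of the preimage
        set δ := connectedComponentIn (G ⁻¹' γ) x with hδdef
        have hP : h₁ '' P = h₀ '' P := by
          obtain ⟨H, h1, h2, h3, h4, h5⟩ := hiso
          refine image_congr fun p hp => ?_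
          have := h5 1 p hp
          rw [h4] at this
          exact this
        have k1 : IsSCC (h₁.symm '' δ) := isSCC_image h₁.symm hδ.1
        have k2 : Disjoint (h₁.symm '' δ) P := by
          rw [← disjoint_image' h₁, image_symm_image, hP]
          exact hδ.2.1
        obtain ⟨c'', hc''⟩ := exists_class k1 k2
        have k3 := hasClass_isotopy h₀ h₁ hiso (hasClass_cmap h₀ hc'')
        rw [image_symm_image] at k3
        have k4 := cmap_injective h₀ P (hasClass_unique k3 hδ)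
        rwa [k4] at hc''

/-- conjugate maps -/
theorem piso_of_conj {F G : Sph → Sph} {P : Set Sph} (h : Sph ≃ₜ Sph)
    (hFG : ∀ x, h (F x) = G (h x)) : PIso F P G (h '' P) :=
  piso_of_equiv h h hFG ⟨fun _ => h, h.continuous.comp continuous_snd,
    fun _ => h.isHomeomorph, rfl, rfl, fun _ _ _ => rfl⟩

/-! ### critical points -/

lemma crit_image {F G : Sph → Sph} (h₀ h₁ : Sph ≃ₜ Sph) (hFG : ∀ x, h₀ (F x) = G (h₁ x)) (x : Sph) :
    h₁ x ∈ crit G ↔ x ∈ crit F := by
  unfold crit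
  rw [mem_ofPred_eq, mem_ofPred_eq, not_iff_not]
  constructor
  · rintro ⟨U, hU, hi⟩
    refine ⟨h₁ ⁻¹' U, h₁.continuous.continuousAt.preimage_mem_nhds hU, fun a ha b hb hab => ?_⟩
    refine h₁.injective (hi ha hb ?_)
    rw [← hFG, ← hFG, hab]
  · rintro ⟨U, hU, hi⟩
    refine ⟨h₁.symm ⁻¹' U, ?_, fun a ha b hb hab => ?_⟩
    · refine h₁.symm.continuous.continuousAt.preimage_mem_nhds ?_
      rwa [h₁.symm_apply_apply]
    · refine h₁.symm.injective (hi ha hb (h₀.injective ?_))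
      rw [hFG, hFG, h₁.apply_symm_apply, h₁.apply_symm_apply]
      exact hab

lemma postcrit_image {F G : Sph → Sph} (h₀ h₁ : Sph ≃ₜ Sph) (hFG : ∀ x, h₀ (F x) = G (h₁ x))
    (hP : ∀ p ∈ postcrit F, h₁ p = h₀ p) : h₀ '' postcrit F = postcrit G := by
  have key : ∀ x ∈ crit F, ∀ n, G^[n + 1] (h₁ x) = h₀ (F^[n + 1] x) := by
    intro x hx n
    induction n with
    | zero => exact (hFG x).symm
    | succ n ih =>
      rw [Function.iterate_succ_apply', ih, Function.iterate_succ_apply' F (n + 1)]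
      rw [← hP (F^[n + 1] x) ⟨n + 1, by omega, x, hx, rfl⟩, ← hFG]
  ext y
  constructor
  · rintro ⟨p, ⟨n, hn, x, hx, rfl⟩, rfl⟩
    obtain ⟨m, rfl⟩ := Nat.exists_eq_add_of_le' hn
    exact ⟨m + 1, hn, h₁ x, (crit_image h₀ h₁ hFG x).2 hx, key x hx m⟩
  · rintro ⟨n, hn, x', hx', rfl⟩
    obtain ⟨m, rfl⟩ := Nat.exists_eq_add_of_le' hn
    have hx : h₁.symm x' ∈ crit F := by
      rw [← crit_image h₀ h₁ hFG, h₁.apply_symm_apply]; exact hx'
    refine ⟨F^[m + 1] (h₁.symm x'), ⟨m + 1, hn, _, hx, rfl⟩, ?_⟩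
    rw [← key _ hx, h₁.apply_symm_apply]

/-- A map which is Thurston equivalent to `G` has the pullback relation of `G`. -/
theorem thurston_piso {F G : Sph → Sph} (h : ThurstonEquiv F G) :
    PIso F (postcrit F) G (postcrit G) ∧ ∃ h₀ : Sph ≃ₜ Sph, h₀ '' postcrit F = postcrit G := by
  obtain ⟨h₀, h₁, hh₀, hh₁, hFG, hiso⟩ := h
  let k₀ : Sph ≃ₜ Sph := hh₀.homeomorph
  let k₁ : Sph ≃ₜ Sph := hh₁.homeomorph
  have hFG' : ∀ x, k₀ (F x) = G (k₁ x) := fun x => congrFun hFG x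
  have hiso' : IsotopicRel (postcrit F) k₀ k₁ := hiso
  have hP : k₀ '' postcrit F = postcrit G := by
    refine postcrit_image k₀ k₁ hFG' fun p hp => ?_
    obtain ⟨H, h1, h2, h3, h4, h5⟩ := hiso
    have := h5 1 p hp
    rw [h4] at this
    exact this
  refine ⟨?_, k₀, hP⟩
  have := piso_of_equiv k₀ k₁ hFG' hiso'
  rwa [hP] at this

end Pool.Agent.J4.H71.TM
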