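import Mathlib

/-! Homeomorphisms of the plane which move finitely many points a little. -/

set_option autoImplicit false
set_option maxHeartbeats 4000000

open Set Topology Filter

namespace Pool.Agent.J4.H71.TM

section
variable {m : ℕ} (p : Fin m → ℂ) (ε : ℝ)

/-- the bump -/
noncomputable def chi (i : Fin m) (z : ℂ) : ℝ := max 0 (1 - ‖z - p i‖ / (2 * ε))

/-- the homeomorphism -/
noncomputable def phi (u : Fin m → ℂ) (z : ℂ) : ℂ := z + ∑ i, (chi p ε i z : ℂ) * u i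

variable {ε} (hε : 0 < ε)

lemma chi_self (i : Fin m) : chi p ε i (p i) = 1 := by simp [chi]

include hε in
lemma chi_far (i : Fin m) {z : ℂ} (h : 2 * ε ≤ ‖z - p i‖) : chi p ε i z = 0 := by
  unfold chi
  rw [max_eq_left]
  have : 1 ≤ ‖z - p i‖ / (2 * ε) := by rw [le_div_iff₀ (by linarith)]; linarith
  linarith

include hε in
lemma phi_p (hp : ∀ i j, i ≠ j → 2 * ε ≤ ‖p i - p j‖) (u : Fin m → ℂ) (i : Fin m) :
    phi p ε u (p i) = p i + u i := by
  unfold phi
  rw [Finset.sum_eq_single i]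
  · rw [chi_self]; push_cast; ring
  · intro j _ hj
    rw [chi_far p hε j (hp i j hj.symm)]; push_cast; ring
  · intro h; exact absurd (Finset.mem_univ i) h

include hε in
lemma chi_lip (i : Fin m) (z z' : ℂ) : |chi p ε i z - chi p ε i z'| ≤ ‖z - z'‖ / (2 * ε) := by
  unfold chi
  refine (abs_max_sub_max_le_max _ _ _ _).trans ?_
  rw [sub_self, abs_zero]
  refine max_le (by positivity) ?_
  have h1 : (1 - ‖z - p i‖ / (2 * ε) - (1 - ‖z' - p i‖ / (2 * ε))) =
      (‖z' - p i‖ - ‖z - p i‖) / (2 * ε) := by ring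
  rw [h1, abs_div, abs_of_pos (by linarith : (0 : ℝ) < 2 * ε)]
  refine div_le_div_of_nonneg_right ?_ (by linarith)
  refine (abs_norm_sub_norm_le _ _).trans ?_
  rw [sub_sub_sub_cancel_right, norm_sub_rev]

include hε in
lemma phi_lip (u : Fin m → ℂ) (hu : ∑ i, ‖u i‖ ≤ ε) (z z' : ℂ) :
    ‖phi p ε u z - phi p ε u z' - (z - z')‖ ≤ 1 / 2 * ‖z - z'‖ := by
  have h1 : phi p ε u z - phi p ε u z' - (z - z') =
      ∑ i, ((chi p ε i z - chi p ε i z' : ℝ) : ℂ) * u i := by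
    unfold phi
    push_cast
    simp only [sub_mul, Finset.sum_sub_distrib]
    ring
  rw [h1]
  refine (norm_sum_le _ _).trans ?_
  have h2 : ∀ i ∈ Finset.univ, ‖((chi p ε i z - chi p ε i z' : ℝ) : ℂ) * u i‖ ≤
      ‖z - z'‖ / (2 * ε) * ‖u i‖ := by
    intro i _
    rw [norm_mul, Complex.norm_real, Real.norm_eq_abs]
    exact mul_le_mul_of_nonneg_right (chi_lip p hε i z z') (norm_nonneg _)
  refine (Finset.sum_le_sum h2).trans ?_
  rw [← Finset.mul_sum]
  have h3 : ‖z - z'‖ / (2 * ε) * ∑ i, ‖u i‖ ≤ ‖z - z'‖ / (2 * ε) * ε :=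
    mul_le_mul_of_nonneg_left hu (by positivity)
  refine h3.trans (le_of_eq ?_)
  field_simp

include hε in
lemma phi_expand (u : Fin m → ℂ) (hu : ∑ i, ‖u i‖ ≤ ε) (z z' : ℂ) :
    ‖z - z'‖ ≤ 2 * ‖phi p ε u z - phi p ε u z'‖ := by
  have h1 := phi_lip p hε u hu z z'
  have h2 : ‖z - z'‖ - ‖phi p ε u z - phi p ε u z'‖ ≤
      ‖phi p ε u z - phi p ε u z' - (z - z')‖ := by
    rw [norm_sub_rev (phi p ε u z - phi p ε u z')]
    exact norm_sub_norm_le _ _
  linarith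

lemma continuous_phi : Continuous (fun q : (Fin m → ℂ) × ℂ => phi p ε q.1 q.2) := by
  unfold phi chi
  fun_prop

include hε in
theorem exists_homeo (u : Fin m → ℂ) (hu : ∑ i, ‖u i‖ ≤ ε) :
    ∃ h : ℂ ≃ₜ ℂ, ∀ z, h z = phi p ε u z := by
  have ha : ApproximatesLinearOn (phi p ε u)
      ((ContinuousLinearEquiv.refl ℂ ℂ : ℂ ≃L[ℂ] ℂ) : ℂ →L[ℂ] ℂ) univ (1 / 2) := by
    intro z _ z' _
    have h1 : phi p ε u z - phi p ε u z' -
      (((ContinuousLinearEquiv.refl ℂ ℂ : ℂ ≃L[ℂ] ℂ) : ℂ →L[ℂ] ℂ)) (z - z') =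
        phi p ε u z - phi p ε u z' - (z - z') := rfl
    rw [h1]
    refine (phi_lip p hε u hu z z').trans (le_of_eq ?_)
    norm_num
  refine ⟨ha.toHomeomorph _ (Or.inr ?_), fun z => rfl⟩
  have h2 : ‖((ContinuousLinearEquiv.refl ℂ ℂ).symm : ℂ →L[ℂ] ℂ)‖₊ = 1 := by
    have : ((ContinuousLinearEquiv.refl ℂ ℂ).symm : ℂ →L[ℂ] ℂ) = ContinuousLinearMap.id ℂ ℂ := rfl
    rw [this]
    exact ContinuousLinearMap.nnnorm_id
  rw [h2]
  norm_num

/-- the homeomorphism -/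
noncomputable def hom (u : Fin m → ℂ) (hu : ∑ i, ‖u i‖ ≤ ε) : ℂ ≃ₜ ℂ :=
  (exists_homeo p hε u hu).choose

lemma hom_apply (u : Fin m → ℂ) (hu : ∑ i, ‖u i‖ ≤ ε) (z : ℂ) :
    hom p hε u hu z = phi p ε u z := (exists_homeo p hε u hu).choose_spec z

/-- the inverses depend continuously on the parameter -/
theorem continuous_inv {X : Type*} [TopologicalSpace X] (u : X → Fin m → ℂ) (hu : Continuous u)
    (hb : ∀ s, ∑ i, ‖u s i‖ ≤ ε) :
    Continuous (fun q : X × ℂ => (hom p hε (u q.1) (hb q.1)).symm q.2) := by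
  rw [continuous_iff_continuousAt]
  rintro ⟨s, y⟩
  set x := (hom p hε (u s) (hb s)).symm y with hx
  have hxy : phi p ε (u s) x = y := by
    rw [← hom_apply p hε (u s) (hb s), hx, Homeomorph.apply_symm_apply]
  rw [ContinuousAt, tendsto_iff_dist_tendsto_zero]
  have h1 : Tendsto (fun q : X × ℂ => 2 * ‖q.2 - phi p ε (u q.1) x‖) (𝓝 (s, y)) (𝓝 0) := by
    have hc : Continuous (fun q : X × ℂ => 2 * ‖q.2 - phi p ε (u q.1) x‖) := by
      refine continuous_const.mul (continuous_snd.sub ?_).norm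
      exact (continuous_phi p).comp ((hu.comp continuous_fst).prodMk continuous_const)
    have := hc.tendsto (s, y)
    simpa [hxy] using this
  refine squeeze_zero (fun _ => dist_nonneg) (fun q => ?_) h1
  rw [dist_eq_norm]
  have h2 := phi_expand p hε (u q.1) (hb q.1) ((hom p hε (u q.1) (hb q.1)).symm q.2) x
  rw [← hom_apply p hε (u q.1) (hb q.1) ((hom p hε (u q.1) (hb q.1)).symm q.2),
    Homeomorph.apply_symm_apply] at h2
  exact h2

end

end Pool.Agent.J4.H71.TM
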