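import Mathlib

/-! Radial stretches: a curve can be pushed away from a puncture. -/

set_option autoImplicit false
set_option maxHeartbeats 4000000

open Set Topology Filter

namespace Pool.Agent.J4.H71.TM

/-- radial isotopy -/
lemma radial (p : ℂ) (S : Set ℝ) (c : unitInterval → ℝ → ℝ)
    (hc : ContinuousOn (fun q : unitInterval × ℝ => c q.1 q.2) (univ ×ˢ S))
    (hpos : ∀ s, ∀ r ∈ S, 0 < c s r) (hmono : ∀ s, StrictMonoOn (fun r => r * c s r) S)
    (w : Circle → ℂ) (hw : Continuous w) (hwi : Function.Injective w) (hwS : ∀ z, ‖w z - p‖ ∈ S) :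
    Continuous (fun q : unitInterval × Circle =>
      p + (c q.1 ‖w q.2 - p‖ : ℂ) * (w q.2 - p)) ∧
    (∀ s, Function.Injective (fun z : Circle => p + (c s ‖w z - p‖ : ℂ) * (w z - p))) ∧
    ∀ s z, ‖(p + (c s ‖w z - p‖ : ℂ) * (w z - p)) - p‖ = ‖w z - p‖ * c s ‖w z - p‖ := by
  have hnorm : ∀ s z, ‖(p + (c s ‖w z - p‖ : ℂ) * (w z - p)) - p‖ = ‖w z - p‖ * c s ‖w z - p‖ := by
    intro s z
    rw [add_sub_cancel_left, norm_mul, Complex.norm_real, Real.norm_of_nonneg (hpos s _ (hwS z)).le,
      mul_comm]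
  refine ⟨?_, ?_, hnorm⟩
  · have h1 : Continuous (fun q : unitInterval × Circle => c q.1 ‖w q.2 - p‖) := by
      refine hc.comp_continuous (f := fun q : unitInterval × Circle => (q.1, ‖w q.2 - p‖)) ?_ ?_
      · exact continuous_fst.prodMk ((hw.comp continuous_snd).sub continuous_const).norm
      · intro q
        exact ⟨trivial, hwS _⟩
    exact continuous_const.add ((Complex.continuous_ofReal.comp h1).mul
      ((hw.comp continuous_snd).sub continuous_const))
  · intro s z z' hzz
    have hzz' : p + (c s ‖w z - p‖ : ℂ) * (w z - p) = p + (c s ‖w z' - p‖ : ℂ) * (w z' - p) := hzz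
    have h1 : ‖w z - p‖ * c s ‖w z - p‖ = ‖w z' - p‖ * c s ‖w z' - p‖ := by
      rw [← hnorm, ← hnorm, hzz']
    have h2 : ‖w z - p‖ = ‖w z' - p‖ := (hmono s).injOn (hwS z) (hwS z') h1
    rw [h2] at hzz'
    have h3 : ((c s ‖w z' - p‖ : ℝ) : ℂ) ≠ 0 := by
      exact_mod_cast (hpos s _ (hwS z')).ne'
    have h4 := mul_left_cancel₀ h3 (add_left_cancel hzz')
    exact hwi (sub_left_injective h4)

/-- pushing away from a finite point -/
lemma push_finite (p : ℂ) (ε : ℝ) (hε : 0 < ε) (w : Circle → ℂ) (hw : Continuous w)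
    (hwi : Function.Injective w) (hwp : ∀ z, w z ≠ p) :
    ∃ W : unitInterval → Circle → ℂ, Continuous (fun q : unitInterval × Circle => W q.1 q.2) ∧
      (∀ t, Function.Injective (W t)) ∧ W 0 = w ∧
      (∀ t z, W t z = w z ∨ (W t z ≠ p ∧ ‖W t z - p‖ < 2 * ε)) ∧ ∀ z, ε ≤ ‖W 1 z - p‖ := by
  -- the distance
  obtain ⟨z0, -, hz0⟩ := isCompact_univ.exists_isMinOn (α := ℝ) (s := (univ : Set Circle))
    ⟨1, trivial⟩ ((hw.sub continuous_const).norm (E := ℂ) |>.continuousOn (s := univ) :
      ContinuousOn (fun z => ‖w z - p‖) univ)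
  set η := ‖w z0 - p‖ with hη
  have hη0 : 0 < η := norm_pos_iff.2 (sub_ne_zero.2 (hwp z0))
  have hηz : ∀ z, η ≤ ‖w z - p‖ := fun z => hz0 (mem_univ z)
  set M := max 1 (ε / η) with hM
  have hM1 : 1 ≤ M := le_max_left _ _
  have hMη : ε ≤ M * η := by
    have : ε / η ≤ M := le_max_right _ _
    rwa [div_le_iff₀ hη0] at this
  let Ms : unitInterval → ℝ := fun s => 1 + s.1 * (M - 1)
  have hMs : ∀ s, 1 ≤ Ms s := fun s => by
    have : 0 ≤ s.1 * (M - 1) := mul_nonneg s.2.1 (by linarith)
    show 1 ≤ 1 + s.1 * (M - 1)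
    linarith
  have hMs1 : Ms 1 = M := by show 1 + (1 : ℝ) * (M - 1) = M; ring
  have hMs0 : Ms 0 = 1 := by show 1 + (0 : ℝ) * (M - 1) = 1; ring
  let f : unitInterval → ℝ → ℝ := fun s r => max r (min (Ms s * r) (ε + r / 2))
  have hfcont : Continuous (fun q : unitInterval × ℝ => f q.1 q.2) := by
    have : Continuous (fun q : unitInterval × ℝ => Ms q.1) := by
      show Continuous (fun q : unitInterval × ℝ => 1 + q.1.1 * (M - 1))
      fun_prop
    exact continuous_snd.max ((this.mul continuous_snd).min (continuous_const.add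
      (continuous_snd.div_const 2)))
  have hfmono : ∀ s, StrictMono (f s) := by
    intro s a b hab
    have h1 : Ms s * a < Ms s * b := mul_lt_mul_of_pos_left hab (by linarith [hMs s])
    have h2 : ε + a / 2 < ε + b / 2 := by linarith
    exact max_lt_max hab (min_lt_min h1 h2)
  have hfr : ∀ s r, r ≤ f s r := fun s r => le_max_left _ _
  have hfeq : ∀ s r, 2 * ε ≤ r → f s r = r := by
    intro s r hr
    refine max_eq_left ((min_le_right _ _).trans ?_)
    linarith
  have hf0 : ∀ r, f 0 r = r := by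
    intro r
    show max r (min (Ms 0 * r) (ε + r / 2)) = r
    rw [hMs0, one_mul]
    exact max_eq_left (min_le_left _ _)
  have hf1 : ∀ r, η ≤ r → ε ≤ f 1 r := by
    intro r hr
    refine le_max_of_le_right (le_min ?_ ?_)
    · rw [hMs1]
      exact hMη.trans (mul_le_mul_of_nonneg_left hr (by linarith))
    · linarith
  have hflt : ∀ s r, r < 2 * ε → f s r < 2 * ε := by
    intro s r hr
    have := hfmono s hr
    rwa [hfeq s _ le_rfl] at this
  let c : unitInterval → ℝ → ℝ := fun s r => f s r / r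
  have hcr : ∀ s, ∀ r ∈ Ioi (0 : ℝ), r * c s r = f s r := by
    intro s r hr
    exact mul_div_cancel₀ _ (ne_of_gt hr)
  have hwS : ∀ z, ‖w z - p‖ ∈ Ioi (0 : ℝ) := fun z => norm_pos_iff.2 (sub_ne_zero.2 (hwp z))
  obtain ⟨h1, h2, h3⟩ := radial p (Ioi 0) c
    (hfcont.continuousOn.div continuous_snd.continuousOn fun q hq => ne_of_gt hq.2)
    (fun s r hr => div_pos (lt_of_lt_of_le hr (hfr s r)) hr)
    (fun s a ha b hb hab => by
      show a * c s a < b * c s b
      rw [hcr s a ha, hcr s b hb]; exact hfmono s hab) w hw hwi hwS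
  refine ⟨fun s z => p + (c s ‖w z - p‖ : ℂ) * (w z - p), h1, h2, ?_, ?_, ?_⟩
  · funext z
    have : c 0 ‖w z - p‖ = 1 := by
      show f 0 _ / _ = 1
      rw [hf0]; exact div_self (ne_of_gt (hwS z))
    show p + (c 0 ‖w z - p‖ : ℂ) * (w z - p) = w z
    rw [this]; push_cast; ring
  · intro s z
    by_cases hr : 2 * ε ≤ ‖w z - p‖
    · left
      have : c s ‖w z - p‖ = 1 := by
        show f s _ / _ = 1
        rw [hfeq s _ hr]; exact div_self (ne_of_gt (hwS z))
      show p + (c s ‖w z - p‖ : ℂ) * (w z - p) = w z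
      rw [this]; push_cast; ring
    · right
      push Not at hr
      have h4 : ‖(p + (c s ‖w z - p‖ : ℂ) * (w z - p)) - p‖ = f s ‖w z - p‖ :=
        (h3 s z).trans (hcr s _ (hwS z))
      constructor
      · intro h5
        have h5' : p + (c s ‖w z - p‖ : ℂ) * (w z - p) = p := h5
        rw [h5', sub_self, norm_zero] at h4
        have := lt_of_lt_of_le (hwS z) (hfr s _)
        linarith
      · show ‖(p + (c s ‖w z - p‖ : ℂ) * (w z - p)) - p‖ < 2 * ε
        rw [h4]; exact hflt s _ hr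
  · intro z
    show ε ≤ ‖(p + (c 1 ‖w z - p‖ : ℂ) * (w z - p)) - p‖
    rw [(h3 1 z).trans (hcr 1 _ (hwS z))]
    exact hf1 _ (hηz z)

/-- pushing away from infinity -/
lemma push_infty (R : ℝ) (hR : 0 < R) (w : Circle → ℂ) (hw : Continuous w)
    (hwi : Function.Injective w) :
    ∃ W : unitInterval → Circle → ℂ, Continuous (fun q : unitInterval × Circle => W q.1 q.2) ∧
      (∀ t, Function.Injective (W t)) ∧ W 0 = w ∧
      (∀ t z, W t z = w z ∨ R < ‖W t z‖) ∧ ∀ z, ‖W 1 z‖ ≤ 2 * R := by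
  obtain ⟨z0, -, hz0⟩ := isCompact_univ.exists_isMaxOn (α := ℝ) (s := (univ : Set Circle))
    ⟨1, trivial⟩ (hw.norm.continuousOn (s := univ) : ContinuousOn (fun z => ‖w z‖) univ)
  set N := ‖w z0‖ with hN
  have hN0 : 0 ≤ N := norm_nonneg _
  have hNz : ∀ z, ‖w z‖ ≤ N := fun z => hz0 (mem_univ z)
  set M := 1 + N / R with hM
  have hM1 : 1 ≤ M := by have : 0 ≤ N / R := by positivity
                         linarith
  have hMR : N ≤ M * R := by rw [hM]; field_simp; linarith
  let k : unitInterval → ℝ := fun s => (1 + s.1 * (M - 1))⁻¹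
  have hk' : ∀ s : unitInterval, 1 ≤ 1 + s.1 * (M - 1) := fun s => by
    have : 0 ≤ s.1 * (M - 1) := mul_nonneg s.2.1 (by linarith)
    linarith
  have hk0 : ∀ s, 0 < k s := fun s => inv_pos.2 (by linarith [hk' s])
  have hk1 : ∀ s, k s ≤ 1 := fun s => inv_le_one_of_one_le₀ (hk' s)
  let c : unitInterval → ℝ → ℝ := fun s r => R * (1 - k s) / max r R + k s
  have hmax : ∀ r, 0 < max r R := fun r => lt_max_of_lt_right hR
  have hkc : Continuous (fun q : unitInterval × ℝ => k q.1) := by
    show Continuous (fun q : unitInterval × ℝ => (1 + q.1.1 * (M - 1))⁻¹)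
    refine Continuous.inv₀ (by fun_prop) fun q => ?_
    have := hk' q.1
    linarith
  have hcc : Continuous (fun q : unitInterval × ℝ => c q.1 q.2) := by
    refine (Continuous.div ?_ ?_ fun q => (hmax q.2).ne').add hkc
    · exact continuous_const.mul (continuous_const.sub hkc)
    · exact continuous_snd.max continuous_const
  have hcle : ∀ s r, r ≤ R → c s r = 1 := by
    intro s r hr
    show R * (1 - k s) / max r R + k s = 1
    rw [max_eq_right hr]; field_simp; ring
  have hcge : ∀ s r, R ≤ r → r * c s r = R * (1 - k s) + k s * r := by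
    intro s r hr
    show r * (R * (1 - k s) / max r R + k s) = _
    rw [max_eq_left hr]
    have : r ≠ 0 := by linarith
    field_simp
  have hpos : ∀ s, ∀ r ∈ Ici (0 : ℝ), 0 < c s r := by
    intro s r _
    have h1 : 0 ≤ R * (1 - k s) / max r R :=
      div_nonneg (mul_nonneg hR.le (by linarith [hk1 s])) (hmax r).le
    show 0 < R * (1 - k s) / max r R + k s
    linarith [hk0 s]
  have hmono : ∀ s, StrictMonoOn (fun r => r * c s r) (Ici 0) := by
    intro s a ha b hb hab
    show a * c s a < b * c s b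
    have ha' : (0 : ℝ) ≤ a := ha
    rcases le_total a R with haR | haR
    · rcases le_total b R with hbR | hbR
      · rw [hcle s a haR, hcle s b hbR]; linarith
      · rw [hcle s a haR, hcge s b hbR, mul_one]
        have h1 := hk0 s
        have h2 := hk1 s
        rcases eq_or_lt_of_le haR with h3 | h3
        · have h5 : a < b := hab
          nlinarith
        · nlinarith
    · have hbR : R ≤ b := haR.trans hab.le
      rw [hcge s a haR, hcge s b hbR]
      have h1 := hk0 s
      nlinarith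
  obtain ⟨h1, h2, h3⟩ := radial 0 (Ici 0) c hcc.continuousOn hpos hmono w hw hwi
    (fun z => norm_nonneg _)
  refine ⟨fun s z => 0 + (c s ‖w z - 0‖ : ℂ) * (w z - 0), h1, h2, ?_, ?_, ?_⟩
  · funext z
    have : c 0 ‖w z - 0‖ = 1 := by
      have hk : k 0 = 1 := by show (1 + (0 : ℝ) * (M - 1))⁻¹ = 1; simp
      show R * (1 - k 0) / max _ R + k 0 = 1
      rw [hk]; simp
    show 0 + (c 0 ‖w z - 0‖ : ℂ) * (w z - 0) = w z
    rw [this]; push_cast; ring
  · intro s z
    rcases le_or_gt ‖w z - 0‖ R with hr | hr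
    · left
      show 0 + (c s ‖w z - 0‖ : ℂ) * (w z - 0) = w z
      rw [hcle s _ hr]; push_cast; ring
    · right
      have h4 := h3 s z
      rw [sub_zero] at h4
      show R < ‖0 + (c s ‖w z - 0‖ : ℂ) * (w z - 0)‖
      rw [h4, hcge s _ hr.le]
      have h5 := hk0 s
      nlinarith
  · intro z
    have h4 := h3 1 z
    rw [sub_zero] at h4
    show ‖0 + (c 1 ‖w z - 0‖ : ℂ) * (w z - 0)‖ ≤ 2 * R
    rw [h4]
    have hk : k 1 = M⁻¹ := by show (1 + (1 : ℝ) * (M - 1))⁻¹ = M⁻¹; congr 1; ring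
    have h6 := hNz z
    rcases le_total ‖w z - 0‖ R with hr | hr
    · rw [hcle 1 _ hr]; linarith
    · rw [hcge 1 _ hr, hk]
      have h5 : ‖w z - 0‖ ≤ N := by rw [sub_zero]; exact h6
      have h7 : M⁻¹ * ‖w z - 0‖ ≤ R := by
        rw [inv_mul_le_iff₀ (by linarith)]
        linarith
      have h8 : 0 ≤ M⁻¹ := by positivity
      nlinarith
end Pool.Agent.J4.H71.TM
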