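import Pool.Agent.J4.H71.TM.Ess
import Pool.Agent.J4.H71.TM.Class
import Pool.Agent.J4.H71.TM.Stretch
import Pool.Agent.J4.H71.TM.Shift

/-! Parameters of rational maps with marked points. -/

set_option autoImplicit false
set_option maxHeartbeats 4000000

open Set Topology Filter
open scoped OnePoint

namespace Pool.Agent.J4.H71.TM

/-- the parameters: numerator, denominator, marked points -/
abbrev Par (d m : ℕ) : Type := (Fin (d + 1) → ℂ) × (Fin (d + 1) → ℂ) × (Fin m → ℂ)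

variable {d m : ℕ}

/-- the postcritically finite rational maps -/
def Valid (v : Par d m) : Prop :=
  (∀ x, ¬ (ev v.1 x = 0 ∧ ev v.2.1 x = 0)) ∧ ¬ (v.1 (Fin.last d) = 0 ∧ v.2.1 (Fin.last d) = 0) ∧
  Function.Injective v.2.2 ∧
  (v.2.1 (Fin.last d) = 0 ∨ ∃ i, v.1 (Fin.last d) = v.2.2 i * v.2.1 (Fin.last d)) ∧
  (∀ i, ev v.2.1 (v.2.2 i) = 0 ∨ ∃ j, ev v.1 (v.2.2 i) = v.2.2 j * ev v.2.1 (v.2.2 i)) ∧
  (∀ x, dv v.1 x * ev v.2.1 x = ev v.1 x * dv v.2.1 x →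
    ev v.2.1 x = 0 ∨ ∃ j, ev v.1 x = v.2.2 j * ev v.2.1 x)

/-- `y` is far from critical -/
def Cond (v : Par d m) (y : ℂ) : Prop :=
  Nice (fun i => v.1 i - y * v.2.1 i) ∧ (∀ x, ev v.1 x = y * ev v.2.1 x → ev v.2.1 x ≠ 0) ∧
    ∀ i, ev v.1 (v.2.2 i) ≠ y * ev v.2.1 (v.2.2 i)

lemma cond_of_valid {v : Par d m} (hv : Valid v) {y : ℂ} (hy : ∀ i, y ≠ v.2.2 i) : Cond v y := by
  obtain ⟨h1, h2, h3, h4, h5, h6⟩ := hv
  have hno : ∀ x, ev v.1 x = y * ev v.2.1 x → ev v.2.1 x ≠ 0 := by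
    intro x hx h0
    refine h1 x ⟨?_, h0⟩
    rw [hx, h0, mul_zero]
  refine ⟨⟨?_, ?_⟩, hno, ?_⟩
  · intro h
    have h' : v.1 (Fin.last d) = y * v.2.1 (Fin.last d) := sub_eq_zero.1 h
    rcases h4 with h7 | ⟨i, h7⟩
    · exact h2 ⟨by rw [h', h7, mul_zero], h7⟩
    · by_cases h8 : v.2.1 (Fin.last d) = 0
      · exact h2 ⟨by rw [h', h8, mul_zero], h8⟩
      · exact hy i (mul_right_cancel₀ h8 (h'.symm.trans h7))
  · intro x hx hdx
    rw [ev_sub_smul] at hx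
    rw [dv_sub_smul] at hdx
    have hx' := sub_eq_zero.1 hx
    have hdx' := sub_eq_zero.1 hdx
    rcases h6 x (by rw [hx', hdx']; ring) with h7 | ⟨i, h7⟩
    · exact hno x hx' h7
    · exact hy i (mul_right_cancel₀ (hno x hx') (hx'.symm.trans h7))
  · intro i hi
    rcases h5 i with h7 | ⟨j, h7⟩
    · exact hno _ hi h7
    · exact hy j (mul_right_cancel₀ (hno _ hi) (hi.symm.trans h7))

/-- the roots depend semicontinuously on the polynomial -/
lemma root_open {X : Type*} [TopologicalSpace X] (f : X → Fin (d + 1) → ℂ) (hf : Continuous f)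
    (g : X → ℂ → ℂ) (hg : Continuous (fun q : X × ℂ => g q.1 q.2)) (x₀ : X)
    (h0 : f x₀ (Fin.last d) ≠ 0) (h1 : ∀ x, ev (f x₀) x = 0 → g x₀ x ≠ 0) :
    ∀ᶠ s in 𝓝 x₀, f s (Fin.last d) ≠ 0 ∧ ∀ x, ev (f s) x = 0 → g s x ≠ 0 := by
  have hl : Continuous fun s => f s (Fin.last d) := (continuous_apply _).comp hf
  have e1 : ∀ᶠ s in 𝓝 x₀, f s (Fin.last d) ≠ 0 := hl.continuousAt.eventually_ne h0
  set R := 1 + (∑ i, ‖f x₀ i‖) / ‖f x₀ (Fin.last d)‖ with hR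
  have e2 : ∀ᶠ s in 𝓝 x₀, 1 + (∑ i, ‖f s i‖) / ‖f s (Fin.last d)‖ < R + 1 := by
    have hc : ContinuousAt (fun s => 1 + (∑ i, ‖f s i‖) / ‖f s (Fin.last d)‖) x₀ := by
      refine continuousAt_const.add (ContinuousAt.div ?_ hl.continuousAt.norm
        (norm_ne_zero_iff.2 h0))
      exact (continuous_finsetSum _ fun i _ => ((continuous_apply i).comp hf).norm).continuousAt
    exact hc.eventually (gt_mem_nhds (lt_add_one _))
  have e3 : ∀ᶠ s in 𝓝 x₀, ∀ x ∈ Metric.closedBall (0 : ℂ) (R + 1), ev (f s) x ≠ 0 ∨ g s x ≠ 0 := by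
    refine (isCompact_closedBall (0 : ℂ) (R + 1)).eventually_forall_of_forall_eventually
      (P := fun s x => ev (f s) x ≠ 0 ∨ g s x ≠ 0) fun x _ => ?_
    by_cases hx : ev (f x₀) x = 0
    · exact (hg.continuousAt.eventually_ne (h1 x hx) : ∀ᶠ z : X × ℂ in 𝓝 (x₀, x), g z.1 z.2 ≠ 0).mono
        fun z hz => Or.inr hz
    · have hc : Continuous (fun q : X × ℂ => ev (f q.1) q.2) :=
        continuous_ev.comp ((hf.comp continuous_fst).prodMk continuous_snd)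
      exact (hc.continuousAt.eventually_ne hx : ∀ᶠ z : X × ℂ in 𝓝 (x₀, x), ev (f z.1) z.2 ≠ 0).mono
        fun z hz => Or.inl hz
  filter_upwards [e1, e2, e3] with s h4 h5 h6
  refine ⟨h4, fun x hx => ?_⟩
  have h7 := root_bound (f s) h4 x hx
  rcases h6 x (by rw [mem_closedBall_zero_iff]; linarith) with h8 | h8
  · exact absurd hx h8
  · exact h8

lemma cond_open (v₀ : Par d m) (y₀ : ℂ) (h : Cond v₀ y₀) :
    ∀ᶠ q : Par d m × ℂ in 𝓝 (v₀, y₀), Cond q.1 q.2 := by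
  obtain ⟨⟨h1, h2⟩, h3, h4⟩ := h
  have hf : Continuous (fun q : Par d m × ℂ => fun i => q.1.1 i - q.2 * q.1.2.1 i) := by fun_prop
  have hdv : Continuous (fun q : (Par d m × ℂ) × ℂ =>
      dv (fun i => q.1.1.1 i - q.1.2 * q.1.1.2.1 i) q.2) :=
    continuous_dv.comp ((hf.comp continuous_fst).prodMk continuous_snd)
  have hev : Continuous (fun q : (Par d m × ℂ) × ℂ => ev q.1.1.2.1 q.2) :=
    continuous_ev.comp (Continuous.prodMk (by fun_prop) continuous_snd)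
  have e1 := root_open (fun q : Par d m × ℂ => fun i => q.1.1 i - q.2 * q.1.2.1 i) hf
    (fun q x => dv (fun i => q.1.1 i - q.2 * q.1.2.1 i) x) hdv (v₀, y₀) h1 h2
  have e2 := root_open (fun q : Par d m × ℂ => fun i => q.1.1 i - q.2 * q.1.2.1 i) hf
    (fun q x => ev q.1.2.1 x) hev (v₀, y₀) h1 (fun x hx => h3 x (by
      rw [ev_sub_smul] at hx; exact sub_eq_zero.1 hx))
  have e3 : ∀ i, ∀ᶠ q : Par d m × ℂ in 𝓝 (v₀, y₀),
      ev q.1.1 (q.1.2.2 i) ≠ q.2 * ev q.1.2.1 (q.1.2.2 i) := by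
    intro i
    have hc : Continuous (fun q : Par d m × ℂ =>
        ev q.1.1 (q.1.2.2 i) - q.2 * ev q.1.2.1 (q.1.2.2 i)) := by
      refine Continuous.sub ?_ (continuous_snd.mul ?_)
      · exact continuous_ev.comp (Continuous.prodMk (by fun_prop) (by fun_prop))
      · exact continuous_ev.comp (Continuous.prodMk (by fun_prop) (by fun_prop))
    refine (hc.continuousAt.eventually_ne (sub_ne_zero.2 (h4 i))).mono fun q hq => ?_
    exact sub_ne_zero.1 hq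
  filter_upwards [e1, e2, eventually_all.2 e3] with q h5 h6 h7
  refine ⟨h5, fun x hx => h6.2 x ?_, h7⟩
  rw [ev_sub_smul]
  exact sub_eq_zero.2 hx

/-- the neighbourhood -/
lemma cond_nhds (v₀ : Par d m) (hv : Valid v₀) (ε : ℝ) (K : Set ℂ) (hK : IsCompact K)
    (hKp : ∀ y ∈ K, ∀ i, y ≠ v₀.2.2 i) :
    ∀ᶠ v : Par d m in 𝓝 v₀, ∀ y ∈ K, Cond v (phi v₀.2.2 ε (fun i => v.2.2 i - v₀.2.2 i) y) := by
  refine hK.eventually_forall_of_forall_eventually
    (P := fun (v : Par d m) y => Cond v (phi v₀.2.2 ε (fun i => v.2.2 i - v₀.2.2 i) y)) fun y hy => ?_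
  have hc : Continuous (fun q : Par d m × ℂ =>
      (q.1, phi v₀.2.2 ε (fun i => q.1.2.2 i - v₀.2.2 i) q.2)) := by
    refine continuous_fst.prodMk ((continuous_phi (ε := ε) v₀.2.2).comp
      (Continuous.prodMk (by fun_prop) continuous_snd))
  have h0 : phi v₀.2.2 ε (fun i => v₀.2.2 i - v₀.2.2 i) y = y := by
    unfold phi; simp
  have h1 := cond_open v₀ y (cond_of_valid hv (hKp y hy))
  have h2 := hc.tendsto (v₀, y)
  simp only [h0] at h2
  exact h2.eventually h1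

end Pool.Agent.J4.H71.TM
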