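import Mathlib

/-!
# Thurston maps, curves in the marked sphere, the pullback relation and its global attractor

The sphere is the Riemann sphere `OnePoint ℂ`.
-/

set_option autoImplicit false

open Set Topology
open scoped OnePoint

namespace Pool.Agent.J4.H71.TM

/-- The two-dimensional sphere. -/
abbrev Sph : Type := OnePoint ℂ

/-- `γ` is a simple closed curve: the image of the circle under a continuous injective map. -/
def IsSCC (γ : Set Sph) : Prop :=
  ∃ f : Circle → Sph, Continuous f ∧ Function.Injective f ∧ range f = γ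

/-- `γ` and `γ'` are isotopic in the complement of `P`: they are the first and the last member of a
continuous family of simple closed curves in the complement of `P`. -/
def CurveIsotopic (P γ γ' : Set Sph) : Prop :=
  ∃ H : unitInterval → Circle → Sph, Continuous (fun q : unitInterval × Circle => H q.1 q.2) ∧
    (∀ t, Function.Injective (H t)) ∧ (∀ t z, H t z ∉ P) ∧ range (H 0) = γ ∧ range (H 1) = γ'

/-- Every component of the complement of `γ` contains at least two points of `P`. -/
def Essential (P γ : Set Sph) : Prop :=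
  ∀ x ∉ γ, ∃ p ∈ P, ∃ q ∈ P, p ≠ q ∧ p ∈ connectedComponentIn γᶜ x ∧
    q ∈ connectedComponentIn γᶜ x

/-- `γ` is an essential simple closed curve in the complement of `P`. -/
def IsEssCurve (P γ : Set Sph) : Prop := IsSCC γ ∧ Disjoint γ P ∧ Essential P γ

/-- The set of the isotopy classes of the essential simple closed curves in the complement of `P`,
together with one more element `none`, which stands for all trivial curves. -/
def CurveClass (P : Set Sph) : Type :=
  Option (Quot fun γ δ : {γ : Set Sph // IsEssCurve P γ} => CurveIsotopic P γ.1 δ.1)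

/-- `δ` is a simple closed curve in the complement of `P`, and `c` is its class. -/
def HasClass (P δ : Set Sph) (c : CurveClass P) : Prop :=
  IsSCC δ ∧ Disjoint δ P ∧
    ((∃ h : IsEssCurve P δ, c = some (Quot.mk _ ⟨δ, h⟩)) ∨ (¬ Essential P δ ∧ c = none))

/-- The pullback relation `c → c'` of the map `F`: some component of the preimage of an essential
curve of the class `c` has the class `c'`, and `none → none`. -/
def Pullback (F : Sph → Sph) (P : Set Sph) (c c' : CurveClass P) : Prop :=
  (c = none ∧ c' = none) ∨
    (c ≠ none ∧ ∃ γ δ : Set Sph, HasClass P γ c ∧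
      (∃ x ∈ F ⁻¹' γ, δ = connectedComponentIn (F ⁻¹' γ) x) ∧ HasClass P δ c')

/-- There is a chain of `n` steps of the relation `R` from `a` to `b`. -/
def Steps {α : Type} (R : α → α → Prop) : ℕ → α → α → Prop
  | 0, a, b => a = b
  | n + 1, a, b => ∃ c, Steps R n a c ∧ R c b

/-- `A` is a finite global attractor of the relation `R`. -/
def IsAttractor {α : Type} (R : α → α → Prop) (A : Set α) : Prop :=
  A.Finite ∧ ∀ a, ∃ N, ∀ n ≥ N, ∀ b, Steps R n a b → b ∈ A

/-- The critical points of a branched covering of the sphere: the points near which it is not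
injective. -/
def crit (F : Sph → Sph) : Set Sph := {x | ¬ ∃ U ∈ 𝓝 x, InjOn F U}

/-- The postcritical set `⋃_{n ≥ 1} F^n(crit F)`. -/
def postcrit (F : Sph → Sph) : Set Sph := {y | ∃ n ≥ 1, ∃ x ∈ crit F, F^[n] x = y}

/-- The point with the homogeneous coordinates `[x : y]`. -/
noncomputable def pt (x y : ℂ) : Sph := if y = 0 then ∞ else ((x / y : ℂ) : OnePoint ℂ)

/-- The binary form of degree `d` with the coefficients `a`. -/
noncomputable def form {d : ℕ} (a : Fin (d + 1) → ℂ) (x y : ℂ) : ℂ :=
  ∑ i : Fin (d + 1), a i * x ^ (i : ℕ) * y ^ (d - (i : ℕ))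

/-- `G` is a rational map of degree `d` of the Riemann sphere: it is given by two binary forms of
degree `d` without common zeros. -/
def IsRationalMap (d : ℕ) (G : Sph → Sph) : Prop :=
  ∃ a b : Fin (d + 1) → ℂ,
    (∀ x y, form a x y = 0 → form b x y = 0 → x = 0 ∧ y = 0) ∧
    ∀ x y, ¬ (x = 0 ∧ y = 0) → G (pt x y) = pt (form a x y) (form b x y)

/-- The homeomorphisms `h₀` and `h₁` of the sphere are isotopic relative to `P`. -/
def IsotopicRel (P : Set Sph) (h₀ h₁ : Sph → Sph) : Prop :=
  ∃ H : unitInterval → Sph → Sph, Continuous (fun q : unitInterval × Sph => H q.1 q.2) ∧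
    (∀ t, IsHomeomorph (H t)) ∧ H 0 = h₀ ∧ H 1 = h₁ ∧ ∀ t, ∀ p ∈ P, H t p = h₀ p

/-- Thurston equivalence. -/
def ThurstonEquiv (F G : Sph → Sph) : Prop :=
  ∃ h₀ h₁ : Sph → Sph, IsHomeomorph h₀ ∧ IsHomeomorph h₁ ∧ h₀ ∘ F = G ∘ h₁ ∧
    IsotopicRel (postcrit F) h₀ h₁

/-- `F` is a rational Thurston map of degree `d`: it is Thurston equivalent to a rational map of
degree `d` of the Riemann sphere, and its postcritical set is finite. -/
def IsRationalThurston (d : ℕ) (F : Sph → Sph) : Prop :=
  (∃ G, IsRationalMap d G ∧ ThurstonEquiv F G) ∧ (postcrit F).Finite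

end Pool.Agent.J4.H71.TM
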