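import Pool.Agent.J4.H71.TM.Root

/-! Transport of the components of the preimage of a moving curve under a moving rational map. -/

set_option autoImplicit false
set_option maxHeartbeats 4000000

open Set Topology Filter

namespace Pool.Agent.J4.H71.TM

/-- the image of a component under a homeomorphism of subsets -/
lemma image_comp {X Y : Type*} [TopologicalSpace X] [TopologicalSpace Y] (f : X → Y) (g : Y → X)
    (S : Set X) (hf : ContinuousOn f S) (hg : ContinuousOn g (f '' S)) (hgf : LeftInvOn g f S)
    (x : X) (hx : x ∈ S) :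
    f '' connectedComponentIn S x = connectedComponentIn (f '' S) (f x) := by
  apply Subset.antisymm
  · refine IsPreconnected.subset_connectedComponentIn ?_ ?_ ?_
    · exact isPreconnected_connectedComponentIn.image f
        (hf.mono (connectedComponentIn_subset S x))
    · exact ⟨x, mem_connectedComponentIn hx, rfl⟩
    · exact image_mono (connectedComponentIn_subset S x)
  · intro y hy
    have h1 : g '' connectedComponentIn (f '' S) (f x) ⊆ connectedComponentIn S x := by
      refine IsPreconnected.subset_connectedComponentIn ?_ ?_ ?_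
      · exact isPreconnected_connectedComponentIn.image g
          (hg.mono (connectedComponentIn_subset _ _))
      · exact ⟨f x, mem_connectedComponentIn ⟨x, hx, rfl⟩, hgf hx⟩
      · rintro _ ⟨z, hz, rfl⟩
        obtain ⟨u, hu, rfl⟩ := connectedComponentIn_subset _ _ hz
        rw [hgf hu]
        exact hu
    obtain ⟨u, hu, rfl⟩ := connectedComponentIn_subset _ _ hy
    refine ⟨u, ?_, rfl⟩
    have := h1 ⟨f u, hy, rfl⟩
    rwa [hgf hu] at this

variable {d : ℕ}

/-- the preimage of the curve `H t` under the rational map `A t / B t` -/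
def Yt (A B : unitInterval → Fin (d + 1) → ℂ) (H : unitInterval → Circle → ℂ)
    (t : unitInterval) : Set ℂ :=
  {x | ∃ z, ev (A t) x = H t z * ev (B t) x}

section

variable (A B : unitInterval → Fin (d + 1) → ℂ) (H : unitInterval → Circle → ℂ)
  (hA : Continuous A) (hB : Continuous B)
  (hH : Continuous (fun q : unitInterval × Circle => H q.1 q.2))
  (hinj : ∀ t, Function.Injective (H t))
  (hnice : ∀ t z, Nice (fun i => A t i - H t z * B t i))
  (hno : ∀ t z x, ev (A t) x = H t z * ev (B t) x → ev (B t) x ≠ 0)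

include hinj hno in
lemma z_unique {t : unitInterval} {z z' : Circle} {x : ℂ} (h : ev (A t) x = H t z * ev (B t) x)
    (h' : ev (A t) x = H t z' * ev (B t) x) : z = z' := by
  have h0 := hno t z x h
  exact hinj t (mul_right_cancel₀ h0 (h.symm.trans h'))

include hH hnice in
lemma isCompact_Yt (t : unitInterval) : IsCompact (Yt A B H t) := by
  have hHt : Continuous (H t) := hH.comp (Continuous.prodMk_right t)
  have hlead : Continuous (fun z : Circle => 1 + (∑ i, ‖A t i - H t z * B t i‖) /
      ‖A t (Fin.last d) - H t z * B t (Fin.last d)‖) := by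
    refine continuous_const.add (Continuous.div ?_ ?_ fun z => ?_)
    · exact continuous_finsetSum _ fun i _ => (continuous_const.sub
        (hHt.mul continuous_const)).norm
    · exact (continuous_const.sub (hHt.mul continuous_const)).norm
    · exact norm_ne_zero_iff.2 (hnice t z).1
  obtain ⟨R, hR⟩ := (isCompact_range hlead).bddAbove
  have hc : IsCompact (((univ : Set Circle) ×ˢ Metric.closedBall (0 : ℂ) R) ∩
      {q : Circle × ℂ | ev (A t) q.2 = H t q.1 * ev (B t) q.2}) := by
    refine (isCompact_univ.prod (isCompact_closedBall _ _)).inter_right ?_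
    refine isClosed_eq ?_ ?_
    · exact continuous_ev.comp (continuous_const.prodMk continuous_snd)
    · exact (hHt.comp continuous_fst).mul
        (continuous_ev.comp (continuous_const.prodMk continuous_snd))
  have : Yt A B H t = Prod.snd '' (((univ : Set Circle) ×ˢ Metric.closedBall (0 : ℂ) R) ∩
      {q : Circle × ℂ | ev (A t) q.2 = H t q.1 * ev (B t) q.2}) := by
    apply Subset.antisymm
    · rintro x ⟨z, hz⟩
      refine ⟨(z, x), ⟨⟨trivial, ?_⟩, hz⟩, rfl⟩
      rw [mem_closedBall_zero_iff]
      refine (root_bound (fun i => A t i - H t z * B t i) (hnice t z).1 x ?_).trans (hR ⟨z, rfl⟩)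
      rw [ev_sub_smul, hz, sub_self]
    · rintro _ ⟨⟨z, x⟩, ⟨-, hz⟩, rfl⟩
      exact ⟨z, hz⟩
  rw [this]
  exact hc.image continuous_snd

omit hnice in
include hH hinj hno in
lemma exists_z (t : unitInterval) : ∃ z : Yt A B H t → Circle, Continuous z ∧
    ∀ x : Yt A B H t, ev (A t) x.1 = H t (z x) * ev (B t) x.1 := by
  choose z hz using fun x : Yt A B H t => x.2
  refine ⟨z, ?_, hz⟩
  have hHt : Continuous (H t) := hH.comp (Continuous.prodMk_right t)
  have hemb : IsEmbedding (H t) := (hHt.isClosedEmbedding (hinj t)).isEmbedding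
  rw [hemb.continuous_iff]
  have : (H t ∘ z) = fun x : Yt A B H t => ev (A t) x.1 / ev (B t) x.1 := by
    funext x
    have h0 := hno t _ _ (hz x)
    rw [Function.comp_apply, eq_div_iff h0]
    exact (hz x).symm
  rw [this]
  refine Continuous.div ?_ ?_ fun x => hno t _ _ (hz x)
  · exact continuous_ev.comp (continuous_const.prodMk continuous_subtype_val)
  · exact continuous_ev.comp (continuous_const.prodMk continuous_subtype_val)

/-- the moving polynomial -/
def mv (t : unitInterval) (z : Circle) : Ub d := ⟨fun i => A t i - H t z * B t i, hnice t z⟩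

include hA hB hH in
lemma continuous_mv : Continuous (fun q : unitInterval × Circle => mv A B H hnice q.1 q.2) := by
  refine Continuous.subtype_mk (continuous_pi fun i => ?_) _
  exact ((continuous_apply i).comp (hA.comp continuous_fst)).sub
    (hH.mul ((continuous_apply i).comp (hB.comp continuous_fst)))

include hA hB hH hinj hnice hno in
theorem exists_theta : ∃ Θ : unitInterval → Yt A B H 0 → ℂ,
    Continuous (fun q : unitInterval × Yt A B H 0 => Θ q.1 q.2) ∧ (∀ t, Function.Injective (Θ t)) ∧
    (∀ x, Θ 0 x = x.1) ∧ (∀ t x, Θ t x ∈ Yt A B H t) ∧ ∀ y ∈ Yt A B H 1, ∃ x, Θ 1 x = y := by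
  obtain ⟨z, hz, hzx⟩ := exists_z A B H hH hinj hno 0
  let Hh : C(unitInterval × Yt A B H 0, Ub d) := ⟨fun q => mv A B H hnice q.1 (z q.2),
    (continuous_mv A B H hA hB hH hnice).comp (continuous_fst.prodMk (hz.comp continuous_snd))⟩
  have hroot : ∀ x : Yt A B H 0, ev (mv A B H hnice 0 (z x)).1 x.1 = 0 := by
    intro x
    show ev (fun i => A 0 i - H 0 (z x) * B 0 i) x.1 = 0
    rw [ev_sub_smul, hzx x, sub_self]
  let f : C(Yt A B H 0, Er d) := ⟨fun x => ⟨(mv A B H hnice 0 (z x), x.1), hroot x⟩, by
    refine Continuous.subtype_mk (Continuous.prodMk ?_ continuous_subtype_val) _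
    exact (continuous_mv A B H hA hB hH hnice).comp (continuous_const.prodMk hz)⟩
  have hf : ∀ x, Hh (0, x) = pr d (f x) := fun x => rfl
  let L := isCoveringMap_pr.liftHomotopy Hh f hf
  have hL : ∀ t x, pr d (L (t, x)) = mv A B H hnice t (z x) := by
    intro t x
    exact congrFun (isCoveringMap_pr.liftHomotopy_lifts Hh f hf) (t, x)
  have hL0 : ∀ x, L (0, x) = f x := fun x => isCoveringMap_pr.liftHomotopy_zero Hh f hf x
  have hLeq : ∀ t x, ev (A t) (L (t, x)).1.2 = H t (z x) * ev (B t) (L (t, x)).1.2 := by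
    intro t x
    have h1 := (L (t, x)).2
    have h2 : (L (t, x)).1.1 = mv A B H hnice t (z x) := hL t x
    rw [h2] at h1
    have h3 : ev (fun i => A t i - H t (z x) * B t i) (L (t, x)).1.2 = 0 := h1
    rw [ev_sub_smul] at h3
    exact sub_eq_zero.1 h3
  have hsnd : Continuous (fun q : Er d => q.1.2) := continuous_snd.comp continuous_subtype_val
  refine ⟨fun t x => (L (t, x)).1.2, hsnd.comp L.continuous, ?_, ?_, ?_, ?_⟩
  · intro t x x' hxx
    have hxx' : (L (t, x)).1.2 = (L (t, x')).1.2 := hxx
    have h1 : z x = z x' := by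
      refine z_unique A B H hinj hno (hLeq t x) ?_
      rw [hxx']
      exact hLeq t x'
    have h2 : L (t, x) = L (t, x') := by
      refine Subtype.ext (Prod.ext ?_ hxx')
      exact (hL t x).trans ((congrArg _ h1).trans (hL t x').symm)
    have h3 : (fun s => L (s, x)) = fun s => L (s, x') := by
      refine isCoveringMap_pr.eq_of_comp_eq (L.continuous.comp (Continuous.prodMk_left x))
        (L.continuous.comp (Continuous.prodMk_left x')) ?_ t h2
      funext s
      exact (hL s x).trans ((congrArg _ h1).trans (hL s x').symm)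
    have h4 := congrFun h3 0
    simp only [hL0] at h4
    have h5 : (f x).1.2 = (f x').1.2 := congrArg (fun q : Er d => q.1.2) h4
    exact Subtype.ext h5
  · intro x
    show (L (0, x)).1.2 = x.1
    rw [hL0]
    rfl
  · intro t x
    exact ⟨z x, hLeq t x⟩
  · rintro y ⟨z1, hz1⟩
    let γ : C(unitInterval, Ub d) := ⟨fun s => mv A B H hnice (unitInterval.symm s) z1,
      (continuous_mv A B H hA hB hH hnice).comp
        (unitInterval.continuous_symm.prodMk continuous_const)⟩
    have he : ev (γ 0).1 y = 0 := by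
      show ev (fun i => A (unitInterval.symm 0) i - H (unitInterval.symm 0) z1 *
        B (unitInterval.symm 0) i) y = 0
      rw [ev_sub_smul, unitInterval.symm_zero, hz1, sub_self]
    obtain ⟨Γ, hΓ1, hΓ2⟩ := isCoveringMap_pr.exists_path_lifts γ ⟨(γ 0, y), he⟩ rfl
    have hΓ : ∀ s, pr d (Γ s) = mv A B H hnice (unitInterval.symm s) z1 := fun s => congrFun hΓ1 s
    have hx : (Γ 1).1.2 ∈ Yt A B H 0 := by
      refine ⟨z1, ?_⟩
      have h1 := (Γ 1).2
      have h2 : (Γ 1).1.1 = mv A B H hnice (unitInterval.symm 1) z1 := hΓ 1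
      rw [h2] at h1
      have h3 : ev (fun i => A (unitInterval.symm 1) i - H (unitInterval.symm 1) z1 *
        B (unitInterval.symm 1) i) (Γ 1).1.2 = 0 := h1
      rw [ev_sub_smul, unitInterval.symm_one] at h3
      exact sub_eq_zero.1 h3
    let x : Yt A B H 0 := ⟨(Γ 1).1.2, hx⟩
    have hzz : z x = z1 := by
      refine z_unique A B H hinj hno (hzx x) ?_
      have h1 := (Γ 1).2
      have h2 : (Γ 1).1.1 = mv A B H hnice (unitInterval.symm 1) z1 := hΓ 1
      rw [h2] at h1
      have h3 : ev (fun i => A (unitInterval.symm 1) i - H (unitInterval.symm 1) z1 *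
        B (unitInterval.symm 1) i) (Γ 1).1.2 = 0 := h1
      rw [ev_sub_smul, unitInterval.symm_one] at h3
      exact sub_eq_zero.1 h3
    refine ⟨x, ?_⟩
    have h3 : (fun s => L (s, x)) = fun s => Γ (unitInterval.symm s) := by
      refine isCoveringMap_pr.eq_of_comp_eq (L.continuous.comp (Continuous.prodMk_left x))
        (Γ.continuous.comp unitInterval.continuous_symm) ?_ 0 ?_
      · funext s
        refine (hL s x).trans ?_
        rw [Function.comp_apply, hΓ, unitInterval.symm_symm, hzz]
      · rw [unitInterval.symm_zero, hL0]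
        refine Subtype.ext (Prod.ext ?_ rfl)
        show mv A B H hnice 0 (z x) = pr d (Γ 1)
        rw [hΓ, unitInterval.symm_one, hzz]
    have h4 := congrFun h3 1
    simp only [unitInterval.symm_one] at h4
    show (L (1, x)).1.2 = y
    rw [h4, hΓ2]

include hA hB hH hinj hnice hno in
/-- **Transport of components.** -/
theorem trans (x0 : ℂ) (hx0 : x0 ∈ Yt A B H 0) (w : Circle → ℂ) (hw : Continuous w)
    (hwi : Function.Injective w) (hwr : range w = connectedComponentIn (Yt A B H 0) x0) :
    ∃ W : unitInterval → Circle → ℂ, Continuous (fun q : unitInterval × Circle => W q.1 q.2) ∧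
      (∀ t, Function.Injective (W t)) ∧ W 0 = w ∧ (∀ t z, W t z ∈ Yt A B H t) ∧
      ∃ y0 ∈ Yt A B H 1, range (W 1) = connectedComponentIn (Yt A B H 1) y0 := by
  classical
  obtain ⟨Θ, hΘ, hΘi, hΘ0, hΘY, hΘs⟩ := exists_theta A B H hA hB hH hinj hnice hno
  have hwY : ∀ z, w z ∈ Yt A B H 0 := by
    intro z
    exact connectedComponentIn_subset _ _ (hwr ▸ mem_range_self z)
  have hcomp : CompactSpace (Yt A B H 0) :=
    isCompact_iff_compactSpace.1 (isCompact_Yt A B H hH hnice 0)
  have hΘ1 : Continuous (Θ 1) := hΘ.comp (Continuous.prodMk_right 1)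
  have hemb : IsClosedEmbedding (Θ 1) := hΘ1.isClosedEmbedding (hΘi 1)
  let f : ℂ → ℂ := fun x => if h : x ∈ Yt A B H 0 then Θ 1 ⟨x, h⟩ else 0
  have hfx : ∀ x : Yt A B H 0, f x.1 = Θ 1 x := by
    intro x
    simp only [f, dif_pos x.2]
  have hff : (Yt A B H 0).domRestrict f = Θ 1 := by
    funext x
    exact hfx x
  have hf : ContinuousOn f (Yt A B H 0) := by
    rw [continuousOn_iff_continuous_domRestrict, hff]
    exact hΘ1
  have hfim : f '' (Yt A B H 0) = Yt A B H 1 := by
    apply Subset.antisymm
    · rintro _ ⟨x, hx, rfl⟩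
      rw [show f x = Θ 1 ⟨x, hx⟩ from hfx ⟨x, hx⟩]
      exact hΘY 1 _
    · intro y hy
      obtain ⟨x, hx⟩ := hΘs y hy
      exact ⟨x.1, x.2, by rw [hfx, hx]⟩
  -- the inverse
  have hrange : range (Θ 1) = Yt A B H 1 := by
    apply Subset.antisymm
    · rintro _ ⟨x, rfl⟩; exact hΘY 1 x
    · intro y hy
      exact hΘs y hy
  let e := hemb.isEmbedding.toHomeomorph
  have hY0 : Nonempty (Yt A B H 0) := ⟨⟨x0, hx0⟩⟩
  let g : ℂ → ℂ := fun y => if h : y ∈ range (Θ 1) then (e.symm ⟨y, h⟩).1 else 0
  have hgx : ∀ x : Yt A B H 0, g (Θ 1 x) = x.1 := by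
    intro x
    simp only [g, dif_pos (mem_range_self x)]
    have : (⟨Θ 1 x, mem_range_self x⟩ : range (Θ 1)) = e x := rfl
    rw [this, e.symm_apply_apply]
  have hg : ContinuousOn g (f '' (Yt A B H 0)) := by
    rw [hfim, ← hrange, continuousOn_iff_continuous_domRestrict]
    have : (range (Θ 1)).domRestrict g = fun y => (e.symm y).1 := by
      funext y
      simp only [domRestrict_apply, g, dif_pos y.2]
    rw [this]
    exact continuous_subtype_val.comp e.symm.continuous
  have hgf : LeftInvOn g f (Yt A B H 0) := by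
    intro x hx
    rw [show f x = Θ 1 ⟨x, hx⟩ from hfx ⟨x, hx⟩, hgx]
  have key := image_comp f g _ hf hg hgf x0 hx0
  rw [hfim] at key
  refine ⟨fun t z => Θ t ⟨w z, hwY z⟩, ?_, ?_, ?_, ?_, f x0, ?_, ?_⟩
  · exact hΘ.comp (continuous_fst.prodMk (Continuous.subtype_mk (hw.comp continuous_snd) _))
  · intro t z z' h
    exact hwi (congrArg Subtype.val (hΘi t h))
  · funext z
    exact hΘ0 _
  · intro t z
    exact hΘY t _
  · rw [← hfim]; exact ⟨x0, hx0, rfl⟩
  · rw [← key, ← hwr, ← range_comp]
    congr 1
    funext z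
    exact (hfx ⟨w z, hwY z⟩).symm

end

end Pool.Agent.J4.H71.TM
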