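import Pool.Agent.J4.H71.TM.Defs
import Pool.Agent.J4.H71.TM.Trans
import Pool.Agent.Helper188_Cone.Jordan

/-! Essential curves: invariance under isotopy. -/

set_option autoImplicit false
set_option maxHeartbeats 4000000

open Set Topology Filter
open scoped OnePoint

namespace Pool.Agent.J4.H71.TM

open Pool.Agent.Helper188_Cone

/-- the curve in the sphere -/
def cv (q : Circle → ℂ) : Set Sph := range fun z => ((q z : ℂ) : Sph)

lemma cv_eq (q : Circle → ℂ) : cv q = (fun x : ℂ => (x : Sph)) '' range q := by
  unfold cv; rw [← range_comp]; rfl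

section
variable (q : Circle → ℂ) (hq : Continuous q) (hinj : Function.Injective q)

lemma coe_mem_cv {a : ℂ} : ((a : ℂ) : Sph) ∈ cv q ↔ a ∈ range q := by
  rw [cv_eq]
  constructor
  · rintro ⟨b, hb, h⟩
    rwa [← OnePoint.coe_injective h]
  · intro h; exact ⟨a, h, rfl⟩

lemma infty_notMem_cv : (∞ : Sph) ∉ cv q := by
  rintro ⟨z, hz⟩
  exact OnePoint.coe_ne_infty _ hz

include hq in
lemma isClosed_cv : IsClosed (cv q) :=
  (isCompact_range (OnePoint.continuous_coe.comp hq)).isClosed

include hq hinj in
lemma not_log_of_bounded {a : ℂ} (ha : a ∉ range q)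
    (hb : Bornology.IsBounded (connectedComponentIn (range q)ᶜ a)) :
    ¬ HasLog (fun z => q z - a) := by
  classical
  intro h
  have := borsuk_index q hq hinj (ι := Unit) {()} (fun _ => a) (fun _ => 1)
    (fun _ _ => ha) (h.congr fun y => by simp) ha hb
  rw [Finset.filter_true_of_mem (fun _ _ => mem_connectedComponentIn ha)] at this
  simp at this

include hq in
lemma comp_closed {a x : ℂ} (hx : x ∈ closure (connectedComponentIn (range q)ᶜ a))
    (hxq : x ∉ range q) : x ∈ connectedComponentIn (range q)ᶜ a := by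
  have hcl : IsClosed (range q) := (isCompact_range hq).isClosed
  have ho : IsOpen (connectedComponentIn (range q)ᶜ x) := hcl.isOpen_compl.connectedComponentIn
  obtain ⟨y, hy1, hy2⟩ := mem_closure_iff.1 hx _ ho (mem_connectedComponentIn hxq)
  rw [connectedComponentIn_eq hy2, ← connectedComponentIn_eq hy1]
  exact mem_connectedComponentIn hxq

include hq in
/-- a point with an unbounded component lies in the component of infinity -/
lemma mem_of_unbounded {a : ℂ} (ha : a ∉ range q)
    (hb : ¬ Bornology.IsBounded (connectedComponentIn (range q)ᶜ a)) :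
    ((a : ℂ) : Sph) ∈ connectedComponentIn (cv q)ᶜ ∞ := by
  set C := connectedComponentIn (range q)ᶜ a with hC
  have hpre : IsPreconnected ((fun x : ℂ => (x : Sph)) '' C) :=
    isPreconnected_connectedComponentIn.image _ OnePoint.continuous_coe.continuousOn
  have hcl : (∞ : Sph) ∈ closure ((fun x : ℂ => (x : Sph)) '' C) := by
    rw [mem_closure_iff_nhds]
    intro t ht
    by_contra hcon
    rw [not_nonempty_iff_eq_empty] at hcon
    have hsub : C ⊆ ((fun x : ℂ => (x : Sph)) ⁻¹' t)ᶜ := by
      intro x hx hxt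
      have : ((x : ℂ) : Sph) ∈ t ∩ (fun x : ℂ => (x : Sph)) '' C := ⟨hxt, x, hx, rfl⟩
      rw [hcon] at this
      exact this
    have h2 : (fun x : ℂ => (x : Sph)) ⁻¹' t ∈ coclosedCompact ℂ :=
      OnePoint.tendsto_coe_infty ht
    rw [Filter.mem_coclosedCompact_iff] at h2
    refine hb (h2.isBounded.subset fun x hx => subset_closure (hsub hx))
  have hpre2 : IsPreconnected (insert (∞ : Sph) ((fun x : ℂ => (x : Sph)) '' C)) := by
    refine hpre.subset_closure (subset_insert _ _) ?_
    rintro x (rfl | hx)
    · exact hcl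
    · exact subset_closure hx
  have hsub : insert (∞ : Sph) ((fun x : ℂ => (x : Sph)) '' C) ⊆ (cv q)ᶜ := by
    rintro x (rfl | ⟨y, hy, rfl⟩)
    · exact infty_notMem_cv q
    · intro h
      exact connectedComponentIn_subset _ _ hy ((coe_mem_cv q).1 h)
  exact hpre2.subset_connectedComponentIn (mem_insert _ _) hsub
    (mem_insert_of_mem _ ⟨a, mem_connectedComponentIn ha, rfl⟩)

include hq in
lemma notMem_of_bounded {a : ℂ}
    (hb : Bornology.IsBounded (connectedComponentIn (range q)ᶜ a)) (ha : a ∉ range q) :
    ((a : ℂ) : Sph) ∉ connectedComponentIn (cv q)ᶜ ∞ := by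
  set C := connectedComponentIn (range q)ᶜ a with hC
  intro hcon
  have hcl : IsClosed (range q) := (isCompact_range hq).isClosed
  have hCo : IsOpen C := hcl.isOpen_compl.connectedComponentIn
  have hU : IsOpen ((fun x : ℂ => (x : Sph)) '' C) := OnePoint.isOpenEmbedding_coe.isOpenMap _ hCo
  have hV : IsOpen ((fun x : ℂ => (x : Sph)) '' closure C)ᶜ :=
    (hb.isCompact_closure.image OnePoint.continuous_coe).isClosed.isOpen_compl
  have hsub : connectedComponentIn (cv q)ᶜ ∞ ⊆ (fun x : ℂ => (x : Sph)) '' C := by
    apply isPreconnected_connectedComponentIn.subset_left_of_subset_union hU hV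
    · rw [Set.disjoint_left]
      rintro _ ⟨x, hx, rfl⟩ h2
      exact h2 ⟨x, subset_closure hx, rfl⟩
    · intro x hx
      by_cases h : x ∈ (fun x : ℂ => (x : Sph)) '' closure C
      · left
        obtain ⟨y, hy, rfl⟩ := h
        refine ⟨y, comp_closed q hq hy ?_, rfl⟩
        intro h3
        exact connectedComponentIn_subset _ _ hx ((coe_mem_cv q).2 h3)
      · exact Or.inr h
    · exact ⟨_, hcon, a, mem_connectedComponentIn ha, rfl⟩
  obtain ⟨y, -, hy⟩ := hsub (mem_connectedComponentIn (infty_notMem_cv q))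
  exact OnePoint.coe_ne_infty _ hy

include hq hinj in
lemma log_iff {a : ℂ} (ha : a ∉ range q) :
    HasLog (fun z => q z - a) ↔ ((a : ℂ) : Sph) ∈ connectedComponentIn (cv q)ᶜ ∞ := by
  by_cases hb : Bornology.IsBounded (connectedComponentIn (range q)ᶜ a)
  · exact ⟨fun h => absurd h (not_log_of_bounded q hq hinj ha hb),
      fun h => absurd h (notMem_of_bounded q hq hb ha)⟩
  · exact ⟨fun _ => mem_of_unbounded q hq ha hb, fun _ => hasLog_unbounded q hq ha hb⟩

include hq hinj in
lemma same_comp {a b : ℂ} (ha : a ∉ range q) (hb : b ∉ range q)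
    (hla : ¬ HasLog (fun z => q z - a)) (hlb : ¬ HasLog (fun z => q z - b)) :
    ((b : ℂ) : Sph) ∈ connectedComponentIn (cv q)ᶜ ((a : ℂ) : Sph) := by
  classical
  have hba : Bornology.IsBounded (connectedComponentIn (range q)ᶜ a) := by
    by_contra h
    exact hla (hasLog_unbounded q hq ha h)
  have hne : ∀ c ∉ range q, ∀ z, q z - c ≠ 0 := fun c hc z h => hc ⟨z, sub_eq_zero.1 h⟩
  by_cases hab : b ∈ connectedComponentIn (range q)ᶜ a
  · have hpre : IsPreconnected ((fun x : ℂ => (x : Sph)) '' connectedComponentIn (range q)ᶜ a) :=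
      isPreconnected_connectedComponentIn.image _ OnePoint.continuous_coe.continuousOn
    refine hpre.subset_connectedComponentIn ⟨a, mem_connectedComponentIn ha, rfl⟩ ?_ ⟨b, hab, rfl⟩
    rintro _ ⟨y, hy, rfl⟩ h
    exact connectedComponentIn_subset _ _ hy ((coe_mem_cv q).1 h)
  · exfalso
    obtain ⟨m, hm⟩ := exists_degree' (fun z => q z - a) (by fun_prop) (hne a ha)
    obtain ⟨n, hn⟩ := exists_degree' (fun z => q z - b) (by fun_prop) (hne b hb)
    have hlog : HasLog (fun z => ∏ c : Bool, (q z - (if c then a else b)) ^ (if c then n else -m)) := by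
      refine ((hm.zpow n).mul (hn.zpow (-m))).congr fun z => ?_
      have h1 := hne a ha z
      have h2 := hne b hb z
      have h3 := Circle.coe_ne_zero z
      simp only [Fintype.univ_bool, Finset.prod_insert (show true ∉ ({false} : Finset Bool) by simp),
        Finset.prod_singleton, if_true, Bool.false_eq_true, if_false]
      rw [mul_zpow, mul_zpow, inv_zpow, inv_zpow, ← zpow_mul, ← zpow_mul]
      have h4 : ((z : ℂ) ^ (n * -m)) = ((z : ℂ) ^ (m * n))⁻¹ := by
        rw [← zpow_neg]; congr 1; ring
      rw [h4, inv_inv]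
      have h5 : ((z : ℂ) ^ (m * n)) ≠ 0 := zpow_ne_zero _ h3
      field_simp
    have := borsuk_index q hq hinj (Finset.univ : Finset Bool) (fun c => if c then a else b)
      (fun c => if c then n else -m) (by
        intro c _
        cases c
        · exact hb
        · exact ha) hlog ha hba
    have hf : (Finset.univ.filter fun c : Bool => (if c then a else b) ∈
        connectedComponentIn (range q)ᶜ a) = {true} := by
      ext c
      cases c
      · simp [hab]
      · have h9 : a ∈ connectedComponentIn (range q)ᶜ a := mem_connectedComponentIn (F := (range q)ᶜ) ha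
        simp [h9]
    rw [Finset.sum_congr (by convert hf) (fun _ _ => rfl)] at this
    simp only [Finset.sum_singleton, if_true] at this
    rw [this] at hn
    exact hlb (hn.congr fun z => by simp)

include hq hinj in
/-- Jordan: the complement is not connected. -/
lemma exists_inside : ∃ a : ℂ, a ∉ range q ∧ ¬ HasLog (fun z => q z - a) := by
  obtain ⟨s, a, w, h, h1, h2, h3⟩ := eilenberg' q hq hinj (fun z : Circle => (z : ℂ))
    (by fun_prop) (fun z => Circle.coe_ne_zero z)
  by_contra hcon
  push Not at hcon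
  have h4 : HasLog (fun z : Circle => ((z : ℂ) ^ (1 : ℤ))) := by
    have h5 : HasLog (fun z => ∏ c ∈ s, (q z - a c) ^ (w c)) :=
      HasLog.prod s _ fun c hc => (hcon (a c) (h1 c hc)).zpow (w c)
    refine (h5.mul ⟨h, h2, fun _ => rfl⟩).congr fun z => ?_
    rw [zpow_one]
    exact h3 z
  have := degree_zero' 1 h4
  norm_num at this

include hq hinj in
/-- Characterization of the essential curves. -/
lemma essential_iff {P : Set Sph} (hP : ∀ p ∈ P, p ∉ cv q) :
    Essential P (cv q) ↔
      (∃ p ∈ P, ∃ p' ∈ P, p ≠ p' ∧ p ∈ connectedComponentIn (cv q)ᶜ ∞ ∧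
        p' ∈ connectedComponentIn (cv q)ᶜ ∞) ∧
      (∃ p ∈ P, ∃ p' ∈ P, p ≠ p' ∧ p ∉ connectedComponentIn (cv q)ᶜ ∞ ∧
        p' ∉ connectedComponentIn (cv q)ᶜ ∞) := by
  constructor
  · intro h
    refine ⟨h ∞ (infty_notMem_cv q), ?_⟩
    obtain ⟨a, ha, hla⟩ := exists_inside q hq hinj
    have ha' : ((a : ℂ) : Sph) ∉ cv q := fun h => ha ((coe_mem_cv q).1 h)
    rw [log_iff q hq hinj ha] at hla
    obtain ⟨p, hp, p', hp', hne, h1, h2⟩ := h _ ha'
    refine ⟨p, hp, p', hp', hne, fun h3 => hla ?_, fun h3 => hla ?_⟩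
    · rw [connectedComponentIn_eq h3, ← connectedComponentIn_eq h1]
      exact mem_connectedComponentIn ha'
    · rw [connectedComponentIn_eq h3, ← connectedComponentIn_eq h2]
      exact mem_connectedComponentIn ha'
  · rintro ⟨⟨p, hp, p', hp', hne, h1, h2⟩, ⟨r, hr, r', hr', hne', h3, h4⟩⟩ x hx
    by_cases hx1 : x ∈ connectedComponentIn (cv q)ᶜ ∞
    · rw [← connectedComponentIn_eq hx1]
      exact ⟨p, hp, p', hp', hne, h1, h2⟩
    · refine ⟨r, hr, r', hr', hne', ?_, ?_⟩
      all_goals
        have key : ∀ y : Sph, y ∉ cv q → y ∉ connectedComponentIn (cv q)ᶜ ∞ →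
            y ∈ connectedComponentIn (cv q)ᶜ x := by
          intro y hy hy2
          induction y using OnePoint.rec with
          | infty => exact absurd (mem_connectedComponentIn hy) hy2
          | coe b =>
            induction x using OnePoint.rec with
            | infty => exact absurd (mem_connectedComponentIn hx) hx1
            | coe a =>
              have ha : a ∉ range q := fun h => hx ((coe_mem_cv q).2 h)
              have hb : b ∉ range q := fun h => hy ((coe_mem_cv q).2 h)
              refine same_comp q hq hinj ha hb ?_ ?_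
              · rw [log_iff q hq hinj ha]; exact hx1
              · rw [log_iff q hq hinj hb]; exact hy2
      · exact key r (hP r hr) h3
      · exact key r' (hP r' hr') h4

end

/-- Essential curves stay essential in an isotopy. -/
theorem essential_isotopy {P : Set Sph} (H : unitInterval → Circle → ℂ)
    (hH : Continuous (fun q : unitInterval × Circle => H q.1 q.2))
    (hinj : ∀ t, Function.Injective (H t)) (hP : ∀ t z, ((H t z : ℂ) : Sph) ∉ P) :
    Essential P (cv (H 0)) ↔ Essential P (cv (H 1)) := by
  have h0 : Continuous (H 0) := hH.comp (Continuous.prodMk_right 0)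
  have h1 : Continuous (H 1) := hH.comp (Continuous.prodMk_right 1)
  have hP' : ∀ t, ∀ p ∈ P, p ∉ cv (H t) := by
    rintro t p hp ⟨z, rfl⟩
    exact hP t z hp
  rw [essential_iff _ h0 (hinj 0) (hP' 0), essential_iff _ h1 (hinj 1) (hP' 1)]
  have key : ∀ p ∈ P, (p ∈ connectedComponentIn (cv (H 0))ᶜ ∞ ↔
      p ∈ connectedComponentIn (cv (H 1))ᶜ ∞) := by
    intro p hp
    induction p using OnePoint.rec with
    | infty =>
      exact ⟨fun _ => mem_connectedComponentIn (infty_notMem_cv _),
        fun _ => mem_connectedComponentIn (infty_notMem_cv _)⟩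
    | coe a =>
      have ha : ∀ t, a ∉ range (H t) := fun t h => hP' t _ hp ((coe_mem_cv _).2 h)
      rw [← log_iff _ h0 (hinj 0) (ha 0), ← log_iff _ h1 (hinj 1) (ha 1)]
      have hne : ∀ t z, H t z - a ≠ 0 := fun t z h => ha t ⟨z, sub_eq_zero.1 h⟩
      constructor
      · intro h
        have := hasLog_homotopy (fun p : Circle × unitInterval => H (unitInterval.symm p.2) p.1 - a)
          ((hH.comp ((unitInterval.continuous_symm.comp continuous_snd).prodMk
            continuous_fst)).sub continuous_const) (fun p => hne _ _)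
          (by simpa only [unitInterval.symm_one] using h)
        simpa only [unitInterval.symm_zero] using this
      · intro h
        exact hasLog_homotopy (fun p : Circle × unitInterval => H p.2 p.1 - a)
          ((hH.comp (continuous_snd.prodMk continuous_fst)).sub continuous_const)
          (fun p => hne _ _) h
  constructor
  · rintro ⟨⟨p, hp, p', hp', hne, h1, h2⟩, ⟨r, hr, r', hr', hne', h3, h4⟩⟩
    exact ⟨⟨p, hp, p', hp', hne, (key p hp).1 h1, (key p' hp').1 h2⟩,
      ⟨r, hr, r', hr', hne', fun h => h3 ((key r hr).2 h), fun h => h4 ((key r' hr').2 h)⟩⟩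
  · rintro ⟨⟨p, hp, p', hp', hne, h1, h2⟩, ⟨r, hr, r', hr', hne', h3, h4⟩⟩
    exact ⟨⟨p, hp, p', hp', hne, (key p hp).2 h1, (key p' hp').2 h2⟩,
      ⟨r, hr, r', hr', hne', fun h => h3 ((key r hr).1 h), fun h => h4 ((key r' hr').1 h)⟩⟩

end Pool.Agent.J4.H71.TM
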