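import Pool.Agent.J4.H71.TM.Move

/-! The pullback relation is locally constant. -/

set_option autoImplicit false
set_option maxHeartbeats 4000000

open Set Topology Filter
open scoped OnePoint

namespace Pool.Agent.J4.H71.TM

variable {d m : ℕ}

/-- the rational map with the parameter `v` -/
noncomputable def Gm (v : Par d m) : Sph → Sph := fun x =>
  OnePoint.elim x (pt (v.1 (Fin.last d)) (v.2.1 (Fin.last d))) (fun z => pt (ev v.1 z) (ev v.2.1 z))

lemma Gm_coe (v : Par d m) (z : ℂ) : Gm v (z : Sph) = pt (ev v.1 z) (ev v.2.1 z) := rfl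

lemma Gm_infty (v : Par d m) : Gm v ∞ = pt (v.1 (Fin.last d)) (v.2.1 (Fin.last d)) := rfl

lemma pt_eq_coe {a b y : ℂ} : pt a b = ((y : ℂ) : Sph) ↔ b ≠ 0 ∧ a = y * b := by
  unfold pt
  split_ifs with h
  · constructor
    · intro h1; exact absurd h1.symm (OnePoint.coe_ne_infty y)
    · rintro ⟨h1, -⟩; exact absurd h h1
  · rw [OnePoint.coe_eq_coe, div_eq_iff h]
    exact ⟨fun h1 => ⟨h, h1⟩, fun h1 => h1.2⟩

lemma pre_eq {v : Par d m} (hv : Valid v) (q : Circle → ℂ) (hq : ∀ z i, q z ≠ v.2.2 i) :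
    Gm v ⁻¹' (cv q) = (fun x : ℂ => (x : Sph)) '' Yv v q := by
  ext x
  induction x using OnePoint.rec with
  | infty =>
    constructor
    · rintro ⟨z, hz⟩
      rw [Gm_infty] at hz
      obtain ⟨h1, h2⟩ := pt_eq_coe.1 hz.symm
      exact absurd (sub_eq_zero.2 h2) (cond_of_valid hv (hq z)).1.1
    · rintro ⟨z, -, hz⟩
      exact absurd hz (OnePoint.coe_ne_infty z)
  | coe x =>
    constructor
    · rintro ⟨z, hz⟩
      rw [Gm_coe] at hz
      obtain ⟨h1, h2⟩ := pt_eq_coe.1 hz.symm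
      exact ⟨x, ⟨z, h2⟩, rfl⟩
    · rintro ⟨x', ⟨z, hz⟩, hx⟩
      have hx' : x' = x := OnePoint.coe_injective hx
      subst hx'
      refine ⟨z, ?_⟩
      rw [Gm_coe]
      exact (pt_eq_coe.2 ⟨(cond_of_valid hv (hq z)).2.1 _ hz, hz⟩).symm

lemma comp_coe (Y : Set ℂ) (x : ℂ) (hx : x ∈ Y) :
    connectedComponentIn ((fun x : ℂ => (x : Sph)) '' Y) (x : Sph) =
      (fun x : ℂ => (x : Sph)) '' connectedComponentIn Y x := by
  refine (image_comp (fun x : ℂ => (x : Sph)) (fun s : Sph => OnePoint.elim s 0 id) Y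
    OnePoint.continuous_coe.continuousOn ?_ (fun y _ => rfl) x hx).symm
  rintro _ ⟨y, -, rfl⟩
  refine ContinuousAt.continuousWithinAt ?_
  have h := OnePoint.isOpenEmbedding_coe (X := ℂ)
  exact h.continuousAt_iff.1 (continuousAt_id (x := y))

lemma phi_P0 (φ : ℂ ≃ₜ ℂ) {p p' : Fin m → ℂ} (h : ∀ i, φ (p i) = p' i) :
    φ.onePointCongr '' P0 p = P0 p' := by
  unfold P0
  rw [image_insert_eq, ← range_comp]
  have h1 : (φ.onePointCongr : Sph → Sph) ∞ = ∞ := rfl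
  have h2 : (φ.onePointCongr ∘ fun i => ((p i : ℂ) : Sph)) = fun i => ((p' i : ℂ) : Sph) := by
    funext i
    show ((φ (p i) : ℂ) : Sph) = _
    rw [h]
  rw [h2, h1]

lemma image_cv (φ : ℂ ≃ₜ ℂ) (q : Circle → ℂ) :
    φ.onePointCongr '' cv q = cv (fun z => φ (q z)) := by
  unfold cv
  rw [← range_comp]
  rfl

lemma symm_image_coe (φ : ℂ ≃ₜ ℂ) (C : Set ℂ) :
    φ.onePointCongr.symm '' ((fun x : ℂ => (x : Sph)) '' C) =
      (fun x : ℂ => (x : Sph)) '' (φ.symm '' C) := by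
  rw [← Set.image_comp, ← Set.image_comp]
  rfl

/-- the relation on the classes of the fixed marked set -/
def RR (p : Fin m → ℂ) (v : Par d m) (φ : ℂ ≃ₜ ℂ) (K : Set ℂ) (c c' : CurveClass (P0 p)) : Prop :=
  (c = none ∧ c' = none) ∨ (c ≠ none ∧ PB p v φ K c c')

theorem pull_iff {p : Fin m → ℂ} {v : Par d m} (hv : Valid v) (φ : ℂ ≃ₜ ℂ)
    (hφp : ∀ i, φ (p i) = v.2.2 i) (c c' : CurveClass (P0 p)) :
    RR p v φ univ c c' ↔ Pullback (Gm v) (φ.onePointCongr '' P0 p)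
      (cmap φ.onePointCongr (P0 p) c) (cmap φ.onePointCongr (P0 p) c') := by
  set Φ := φ.onePointCongr with hΦ
  constructor
  · rintro (⟨rfl, rfl⟩ | ⟨hc, q, hq, hqi, hqp, -, hqc, x, hx, hxc⟩)
    · exact Or.inl ⟨rfl, rfl⟩
    · have hqv : ∀ z i, φ (q z) ≠ v.2.2 i := by
        intro z i hi
        rw [← hφp] at hi
        exact hqp z i (φ.injective hi)
      have hpre := pre_eq hv (fun z => φ (q z)) hqv
      refine Or.inr ⟨fun h => hc (cmap_injective Φ (P0 p) (h.trans (cmap_none Φ (P0 p)).symm)),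
        cv (fun z => φ (q z)),
        (fun x : ℂ => (x : Sph)) '' connectedComponentIn (Yv v (fun z => φ (q z))) x,
        ?_, ⟨(x : Sph), ?_, ?_⟩, ?_⟩
      · rw [← image_cv]; exact hasClass_cmap Φ hqc
      · rw [hpre]; exact ⟨x, hx, rfl⟩
      · rw [hpre, comp_coe _ _ hx]
      · have h1 : (fun x : ℂ => (x : Sph)) '' connectedComponentIn (Yv v (fun z => φ (q z))) x =
            Φ '' CC v φ (fun z => φ (q z)) x := by
          unfold CC
          rw [← symm_image_coe φ, image_symm_image]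
        rw [h1]
        exact hasClass_cmap Φ hxc
  · rintro (⟨h1, h2⟩ | ⟨hc, γ, δ, hγ, ⟨x, hx, rfl⟩, hδ⟩)
    · exact Or.inl ⟨cmap_injective Φ _ h1, cmap_injective Φ _ h2⟩
    · have hγ' : HasClass (P0 p) (Φ.symm '' γ) c := by
        rw [← hasClass_cmap_iff Φ, image_symm_image]; exact hγ
      obtain ⟨q, hq, hqi, hqp, hγq⟩ := exists_param (mem_insert _ _) hγ'
      have hqp' : ∀ z i, q z ≠ p i := fun z i hi => hqp z ((coe_mem_P0 p _).2 ⟨i, hi⟩)
      have hγ2 : γ = cv (fun z => φ (q z)) := by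
        rw [← image_cv, ← hγq, image_symm_image]
      subst hγ2
      have hqv : ∀ z i, φ (q z) ≠ v.2.2 i := by
        intro z i hi
        rw [← hφp] at hi
        exact hqp' z i (φ.injective hi)
      have hpre := pre_eq hv (fun z => φ (q z)) hqv
      rw [hpre] at hx
      obtain ⟨x, hx, rfl⟩ := hx
      refine Or.inr ⟨fun h => hc (h ▸ rfl), q, hq, hqi, hqp', fun _ => trivial, hγq ▸ hγ', x, hx, ?_⟩
      rw [hpre, comp_coe _ _ hx] at hδ
      rw [← hasClass_cmap_iff Φ]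
      unfold CC
      rw [← symm_image_coe φ, image_symm_image]
      exact hδ

theorem rel_iso {p : Fin m → ℂ} {v : Par d m} (hv : Valid v) (φ : ℂ ≃ₜ ℂ)
    (hφp : ∀ i, φ (p i) = v.2.2 i) :
    ∃ e : CurveClass (P0 p) ≃ CurveClass (P0 v.2.2), ∀ c c',
      RR p v φ univ c c' ↔ Pullback (Gm v) (P0 v.2.2) (e c) (e c') := by
  rw [← phi_P0 φ hφp]
  exact ⟨cequiv φ.onePointCongr (P0 p), fun c c' => pull_iff hv φ hφp c c'⟩

lemma pb_mono {p : Fin m → ℂ} {v : Par d m} {φ : ℂ ≃ₜ ℂ} {K : Set ℂ} {c c' : CurveClass (P0 p)}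
    (h : PB p v φ K c c') : PB p v φ univ c c' := by
  obtain ⟨q, h1, h2, h3, -, h5⟩ := h
  exact ⟨q, h1, h2, h3, fun _ => trivial, h5⟩

/-- **The pullback relation is locally constant.** -/
theorem loc_const (v₀ : Par d m) (hv₀ : Valid v₀) :
    ∀ᶠ v : Par d m in 𝓝 v₀, Valid v → PIso (Gm v) (P0 v.2.2) (Gm v₀) (P0 v₀.2.2) := by
  set p := v₀.2.2 with hp
  -- the constants
  obtain ⟨ε, hε, hεp⟩ : ∃ ε > 0, ∀ i j, i ≠ j → 4 * ε ≤ ‖p i - p j‖ := by
    have h1 : ∀ q : Fin m × Fin m, ∀ᶠ ε : ℝ in 𝓝[>] 0, q.1 ≠ q.2 → 4 * ε ≤ ‖p q.1 - p q.2‖ := by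
      intro q
      by_cases h : q.1 = q.2
      · exact Eventually.of_forall fun _ h' => absurd h h'
      · have h2 : 0 < ‖p q.1 - p q.2‖ := norm_pos_iff.2 (sub_ne_zero.2 fun h' => h (hv₀.2.2.1 h'))
        have h3 : ∀ᶠ ε : ℝ in 𝓝 0, 4 * ε < ‖p q.1 - p q.2‖ := by
          have hc : Continuous fun ε : ℝ => 4 * ε := by fun_prop
          have := hc.tendsto 0
          simp only [mul_zero] at this
          exact this.eventually (gt_mem_nhds h2)
        exact (h3.filter_mono nhdsWithin_le_nhds).mono fun ε hε _ => hε.le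
    have h2 := (eventually_all.2 h1).and self_mem_nhdsWithin
    obtain ⟨ε, h3, h4⟩ := h2.exists
    exact ⟨ε, h4, fun i j hij => h3 (i, j) hij⟩
  set R := (∑ i, ‖p i‖) + 2 * ε with hRdef
  have hpR : ∀ i, ‖p i‖ + 2 * ε ≤ R := by
    intro i
    have : ‖p i‖ ≤ ∑ i, ‖p i‖ :=
      Finset.single_le_sum (f := fun i => ‖p i‖) (fun _ _ => norm_nonneg _) (Finset.mem_univ i)
    linarith
  have hR : 0 < R := by
    have : 0 ≤ ∑ i, ‖p i‖ := Finset.sum_nonneg fun _ _ => norm_nonneg _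
    linarith
  have hKp : ∀ y ∈ KK p ε R, ∀ i, y ≠ p i := by
    rintro y hy i rfl
    have := hy.2 i
    rw [sub_self, norm_zero] at this
    linarith
  have e1 := cond_nhds v₀ hv₀ ε (KK p ε R) (isCompact_KK p ε R) hKp
  have e2 : ∀ᶠ v : Par d m in 𝓝 v₀, ∑ i, ‖v.2.2 i - p i‖ ≤ ε := by
    have hc : Continuous fun v : Par d m => ∑ i, ‖v.2.2 i - p i‖ := by fun_prop
    have h1 := hc.tendsto v₀
    have h2 : ∑ i, ‖v₀.2.2 i - p i‖ = 0 := by simp [hp]
    rw [h2] at h1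
    exact (h1.eventually (gt_mem_nhds hε)).mono fun v hv => hv.le
  obtain ⟨r, hr, hball⟩ := Metric.eventually_nhds_iff_ball.1 (e1.and e2)
  filter_upwards [Metric.ball_mem_nhds v₀ hr] with v hvb hv
  have hv₀b : v₀ ∈ Metric.ball v₀ r := Metric.mem_ball_self hr
  have hseg : ∀ u ∈ Metric.ball v₀ r, ∀ u' ∈ Metric.ball v₀ r, ∀ t : unitInterval,
      u + t.1 • (u' - u) ∈ Metric.ball v₀ r := by
    intro u hu u' hu' t
    exact (convex_ball v₀ r).add_smul_sub_mem hu hu' t.2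
  have hb := (hball v hvb).2
  have hb₀ := (hball v₀ hv₀b).2
  have hφ : ∀ (u : Par d m) (hu : ∑ i, ‖u.2.2 i - p i‖ ≤ ε) (i : Fin m),
      hmo hε u hu (p i) = u.2.2 i := by
    intro u hu i
    have h1 : hmo hε u hu (p i) = phi p ε (fun i => u.2.2 i - p i) (p i) := hom_apply p hε _ _ _
    rw [h1, phi_p p hε fun i j hij => by linarith [hεp i j hij]]
    ring
  obtain ⟨e, he⟩ := rel_iso hv (hmo hε v hb) (hφ v hb)
  obtain ⟨e₀, he₀⟩ := rel_iso hv₀ (hmo hε v₀ hb₀) (hφ v₀ hb₀)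
  have hp2 : ∀ i j, i ≠ j → 2 * ε ≤ ‖p i - p j‖ := fun i j hij => by linarith [hεp i j hij]
  have hRR : ∀ c c', RR p v (hmo hε v hb) univ c c' ↔
      RR p v₀ (hmo hε v₀ hb₀) univ c c' := by
    intro c c'
    refine or_congr Iff.rfl (and_congr Iff.rfl ⟨fun h => ?_, fun h => ?_⟩)
    · have h1 := pb_compact hv _ (hφ v hb) ε R hε hR hεp hpR c c' h
      exact pb_mono (pb_move hε hp2 _ v v₀ hb hb₀
        (fun t y hy => (hball _ (hseg v hvb v₀ hv₀b t)).1 y hy) c c' h1)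
    · have h1 := pb_compact hv₀ _ (hφ v₀ hb₀) ε R hε hR hεp hpR c c' h
      exact pb_mono (pb_move hε hp2 _ v₀ v hb₀ hb
        (fun t y hy => (hball _ (hseg v₀ hv₀b v hvb t)).1 y hy) c c' h1)
  refine ⟨e.symm.trans e₀, fun c c' => ?_⟩
  have h1 := he (e.symm c) (e.symm c')
  rw [e.apply_symm_apply, e.apply_symm_apply] at h1
  rw [← h1, hRR, he₀]
  rfl

end Pool.Agent.J4.H71.TM
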