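import Pool.Agent.J4.H71.TM.Cond
import Pool.Agent.Helper334_SA.Comp

/-! The set of the parameters of the postcritically finite rational maps is semialgebraic. -/

set_option autoImplicit false
set_option maxHeartbeats 4000000

open Set Topology Filter

namespace Pool.Agent.J4.H71.TM

open Pool.Agent.Helper334_SA

/-- complex valued polynomial functions of real variables -/
def CP {κ : Type} (f : (κ → ℝ) → ℂ) : Prop := PF (fun w => (f w).re) ∧ PF (fun w => (f w).im)

section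
variable {κ : Type}

lemma CP.const (c : ℂ) : CP (fun _ : κ → ℝ => c) := ⟨PF.const _, PF.const _⟩

lemma CP.add {f g : (κ → ℝ) → ℂ} (hf : CP f) (hg : CP g) : CP (fun w => f w + g w) :=
  ⟨hf.1.add hg.1, hf.2.add hg.2⟩

lemma CP.mul {f g : (κ → ℝ) → ℂ} (hf : CP f) (hg : CP g) : CP (fun w => f w * g w) := by
  refine ⟨?_, ?_⟩
  · simp only [Complex.mul_re]
    exact (hf.1.mul hg.1).sub (hf.2.mul hg.2)
  · simp only [Complex.mul_im]
    exact (hf.1.mul hg.2).add (hf.2.mul hg.1)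

lemma CP.pow {f : (κ → ℝ) → ℂ} (hf : CP f) (n : ℕ) : CP (fun w => f w ^ n) := by
  induction n with
  | zero => simp only [pow_zero]; exact CP.const 1
  | succ n ih => simp only [pow_succ]; exact ih.mul hf

lemma CP.sum {α : Type*} (s : Finset α) {f : α → (κ → ℝ) → ℂ} (hf : ∀ a ∈ s, CP (f a)) :
    CP (fun w => ∑ a ∈ s, f a w) := by
  refine ⟨?_, ?_⟩
  · simp only [Complex.re_sum]
    exact PF.sum s fun a ha => (hf a ha).1
  · simp only [Complex.im_sum]
    exact PF.sum s fun a ha => (hf a ha).2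

lemma CP.comp {κ' : Type} {f : (κ → ℝ) → ℂ} (hf : CP f) {φ : (κ' → ℝ) → κ → ℝ}
    (hφ : ∀ i, PF (fun v => φ v i)) : CP (fun w => f (φ w)) :=
  ⟨hf.1.comp hφ, hf.2.comp hφ⟩

lemma CP.ev {d : ℕ} {A : (κ → ℝ) → Fin (d + 1) → ℂ} (hA : ∀ i, CP (fun w => A w i))
    {x : (κ → ℝ) → ℂ} (hx : CP x) : CP (fun w => ev (A w) (x w)) := by
  unfold Pool.Agent.J4.H71.TM.ev
  exact CP.sum _ fun i _ => (hA i).mul (hx.pow _)

lemma CP.dv {d : ℕ} {A : (κ → ℝ) → Fin (d + 1) → ℂ} (hA : ∀ i, CP (fun w => A w i))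
    {x : (κ → ℝ) → ℂ} (hx : CP x) : CP (fun w => dv (A w) (x w)) := by
  unfold Pool.Agent.J4.H71.TM.dv
  exact CP.sum _ fun i _ => (hA i).mul ((CP.const _).mul (hx.pow _))

lemma CP.eq {f g : (κ → ℝ) → ℂ} (hf : CP f) (hg : CP g) : SAP (fun w => f w = g w) :=
  ((SAP.eq hf.1 hg.1).and (SAP.eq hf.2 hg.2)).congr fun _ => Complex.ext_iff

lemma CP.eq_zero {f : (κ → ℝ) → ℂ} (hf : CP f) : SAP (fun w => f w = 0) := hf.eq (CP.const 0)

lemma SAP.forallC {p : (κ → ℝ) → ℂ → Prop}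
    (h : SAP (fun w : Option (Option κ) → ℝ =>
      p (fun i => w (some (some i))) ⟨w (some none), w none⟩)) :
    SAP (fun v => ∀ x, p v x) := by
  have h1 : SAP (fun w : Option κ → ℝ => ∀ t : ℝ, p (fun i => w (some i)) ⟨w none, t⟩) :=
    SAP.forall' h
  have h2 := SAP.forall' (p := fun (v : κ → ℝ) s => ∀ t : ℝ, p v ⟨s, t⟩) h1
  refine h2.congr fun v => ⟨fun h s t => h _, fun h x => ?_⟩
  have := h x.re x.im
  exact this

lemma SAP.forall_fin {α : Type*} [Finite α] {p : α → (κ → ℝ) → Prop} (h : ∀ a, SAP (p a)) :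
    SAP (fun v => ∀ a, p a v) := by
  have := (SAP.exists_fin fun a => (h a).not).not
  exact this.congr fun v => by push Not; rfl

end

/-- the real coordinates -/
abbrev Ix (d m : ℕ) : Type := (Fin (d + 1) ⊕ Fin (d + 1) ⊕ Fin m) × Bool

/-- the parameter with given real coordinates -/
def dec (d m : ℕ) (v : Ix d m → ℝ) : Par d m :=
  (fun i => ⟨v (Sum.inl i, false), v (Sum.inl i, true)⟩,
    fun i => ⟨v (Sum.inr (Sum.inl i), false), v (Sum.inr (Sum.inl i), true)⟩,
    fun i => ⟨v (Sum.inr (Sum.inr i), false), v (Sum.inr (Sum.inr i), true)⟩)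

lemma dec_surj (d m : ℕ) : Function.Surjective (dec d m) := by
  rintro ⟨A, B, p⟩
  refine ⟨fun q => match q with
    | (Sum.inl i, false) => (A i).re
    | (Sum.inl i, true) => (A i).im
    | (Sum.inr (Sum.inl i), false) => (B i).re
    | (Sum.inr (Sum.inl i), true) => (B i).im
    | (Sum.inr (Sum.inr i), false) => (p i).re
    | (Sum.inr (Sum.inr i), true) => (p i).im, rfl⟩

lemma continuous_mk {X : Type*} [TopologicalSpace X] {f g : X → ℝ} (hf : Continuous f)
    (hg : Continuous g) : Continuous fun x => (⟨f x, g x⟩ : ℂ) := by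
  have : (fun x => (⟨f x, g x⟩ : ℂ)) = fun x => (f x : ℂ) + (g x : ℂ) * Complex.I := by
    funext x
    exact Complex.mk_eq_add_mul_I _ _
  rw [this]
  fun_prop

lemma continuous_dec (d m : ℕ) : Continuous (dec d m) := by
  refine Continuous.prodMk ?_ (Continuous.prodMk ?_ ?_)
  · exact continuous_pi fun i => continuous_mk (continuous_apply _) (continuous_apply _)
  · exact continuous_pi fun i => continuous_mk (continuous_apply _) (continuous_apply _)
  · exact continuous_pi fun i => continuous_mk (continuous_apply _) (continuous_apply _)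

theorem sa_valid (d m : ℕ) : SA {v : Ix d m → ℝ | Valid (dec d m v)} := by
  have hA : ∀ i, CP (fun w : Ix d m → ℝ => (dec d m w).1 i) := fun i => ⟨PF.coord _, PF.coord _⟩
  have hB : ∀ i, CP (fun w : Ix d m → ℝ => (dec d m w).2.1 i) := fun i => ⟨PF.coord _, PF.coord _⟩
  have hp : ∀ i, CP (fun w : Ix d m → ℝ => (dec d m w).2.2 i) := fun i => ⟨PF.coord _, PF.coord _⟩
  have hA' : ∀ i, CP (fun w : Option (Option (Ix d m)) → ℝ =>
      (dec d m (fun i => w (some (some i)))).1 i) := fun i => ⟨PF.coord _, PF.coord _⟩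
  have hB' : ∀ i, CP (fun w : Option (Option (Ix d m)) → ℝ =>
      (dec d m (fun i => w (some (some i)))).2.1 i) := fun i => ⟨PF.coord _, PF.coord _⟩
  have hp' : ∀ i, CP (fun w : Option (Option (Ix d m)) → ℝ =>
      (dec d m (fun i => w (some (some i)))).2.2 i) := fun i => ⟨PF.coord _, PF.coord _⟩
  have hx : CP (fun w : Option (Option (Ix d m)) → ℝ => (⟨w (some none), w none⟩ : ℂ)) :=
    ⟨PF.coord _, PF.coord _⟩
  have h1 : SAP (fun v : Ix d m → ℝ =>
      ∀ x, ¬ (ev (dec d m v).1 x = 0 ∧ ev (dec d m v).2.1 x = 0)) := by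
    refine SAP.forallC (p := fun v x => ¬ (ev (dec d m v).1 x = 0 ∧ ev (dec d m v).2.1 x = 0)) ?_
    exact ((CP.ev hA' hx).eq_zero.and (CP.ev hB' hx).eq_zero).not
  have h2 : SAP (fun v : Ix d m → ℝ => ¬ ((dec d m v).1 (Fin.last d) = 0 ∧
      (dec d m v).2.1 (Fin.last d) = 0)) := ((hA _).eq_zero.and (hB _).eq_zero).not
  have h3 : SAP (fun v : Ix d m → ℝ => Function.Injective (dec d m v).2.2) := by
    have h : SAP (fun v : Ix d m → ℝ => ∀ i j, (dec d m v).2.2 i = (dec d m v).2.2 j → i = j) :=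
      SAP.forall_fin fun i => SAP.forall_fin fun j => ((hp i).eq (hp j)).imp (SAP.const _)
    exact h.congr fun v => ⟨fun h i j => @h i j, fun h i j => h i j⟩
  have h4 : SAP (fun v : Ix d m → ℝ => (dec d m v).2.1 (Fin.last d) = 0 ∨ ∃ i,
      (dec d m v).1 (Fin.last d) = (dec d m v).2.2 i * (dec d m v).2.1 (Fin.last d)) :=
    (hB _).eq_zero.or (SAP.exists_fin fun i => (hA _).eq ((hp i).mul (hB _)))
  have h5 : SAP (fun v : Ix d m → ℝ => ∀ i, ev (dec d m v).2.1 ((dec d m v).2.2 i) = 0 ∨ ∃ j,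
      ev (dec d m v).1 ((dec d m v).2.2 i) =
        (dec d m v).2.2 j * ev (dec d m v).2.1 ((dec d m v).2.2 i)) :=
    SAP.forall_fin fun i => (CP.ev hB (hp i)).eq_zero.or
      (SAP.exists_fin fun j => (CP.ev hA (hp i)).eq ((hp j).mul (CP.ev hB (hp i))))
  have h6 : SAP (fun v : Ix d m → ℝ => ∀ x,
      dv (dec d m v).1 x * ev (dec d m v).2.1 x = ev (dec d m v).1 x * dv (dec d m v).2.1 x →
      ev (dec d m v).2.1 x = 0 ∨ ∃ j, ev (dec d m v).1 x =
        (dec d m v).2.2 j * ev (dec d m v).2.1 x) := by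
    refine SAP.forallC (p := fun v x =>
      dv (dec d m v).1 x * ev (dec d m v).2.1 x = ev (dec d m v).1 x * dv (dec d m v).2.1 x →
      ev (dec d m v).2.1 x = 0 ∨ ∃ j, ev (dec d m v).1 x =
        (dec d m v).2.2 j * ev (dec d m v).2.1 x) ?_
    refine SAP.imp ?_ ?_
    · exact ((CP.dv hA' hx).mul (CP.ev hB' hx)).eq ((CP.ev hA' hx).mul (CP.dv hB' hx))
    · exact (CP.ev hB' hx).eq_zero.or
        (SAP.exists_fin fun j => (CP.ev hA' hx).eq ((hp' j).mul (CP.ev hB' hx)))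
  exact h1.and (h2.and (h3.and (h4.and (h5.and h6))))

end Pool.Agent.J4.H71.TM
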