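import Pool.Agent.J4.H71.TM.Norm
import Pool.Agent.J4.H71.TM.SAx

/-! The size of the finite global attractor. -/

set_option autoImplicit false
set_option maxHeartbeats 4000000

open Set Topology Filter
open scoped OnePoint

namespace Pool.Agent.J4.H71.TM

/-- the minimal attractor -/
def core {α : Type} (R : α → α → Prop) : Set α := {b | ∃ a, ∀ N, ∃ n ≥ N, Steps R n a b}

lemma core_subset {α : Type} {R : α → α → Prop} {A : Set α} (hA : IsAttractor R A) :
    core R ⊆ A := by
  rintro b ⟨a, ha⟩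
  obtain ⟨N, hN⟩ := hA.2 a
  obtain ⟨n, hn, h⟩ := ha N
  exact hN n hn b h

lemma core_attractor {α : Type} {R : α → α → Prop} (h : ∃ A, IsAttractor R A) :
    IsAttractor R (core R) := by
  obtain ⟨A, hA⟩ := h
  refine ⟨hA.1.subset (core_subset hA), fun a => ?_⟩
  obtain ⟨N, hN⟩ := hA.2 a
  have h1 : ∀ b ∈ A \ core R, ∃ M, ∀ n ≥ M, ¬ Steps R n a b := by
    rintro b ⟨-, hb⟩
    by_contra hcon
    push Not at hcon
    exact hb ⟨a, hcon⟩
  have hfin : (A \ core R).Finite := hA.1.subset sdiff_subset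
  have h2 : ∀ᶠ n in atTop, ∀ b ∈ A \ core R, ¬ Steps R n a b := by
    refine (hfin.eventually_all).2 fun b hb => ?_
    obtain ⟨M, hM⟩ := h1 b hb
    exact eventually_atTop.2 ⟨M, hM⟩
  obtain ⟨M, hM⟩ := eventually_atTop.1 (h2.and (eventually_ge_atTop N))
  refine ⟨M, fun n hn b hb => ?_⟩
  by_contra hbc
  exact (hM n hn).1 b ⟨hN n (hM n hn).2 b hb, hbc⟩ hb

lemma steps_equiv {α β : Type} {R : α → α → Prop} {R' : β → β → Prop} (e : α ≃ β)
    (he : ∀ a b, R a b ↔ R' (e a) (e b)) (n : ℕ) (a b : α) :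
    Steps R n a b ↔ Steps R' n (e a) (e b) := by
  induction n generalizing b with
  | zero => exact ⟨fun h => congrArg e h, fun h => e.injective h⟩
  | succ n ih =>
    constructor
    · rintro ⟨c, h1, h2⟩
      exact ⟨e c, (ih c).1 h1, (he c b).1 h2⟩
    · rintro ⟨c, h1, h2⟩
      refine ⟨e.symm c, (ih _).2 ?_, (he _ b).2 ?_⟩
      · rwa [e.apply_symm_apply]
      · rwa [e.apply_symm_apply]

lemma core_equiv {α β : Type} {R : α → α → Prop} {R' : β → β → Prop} (e : α ≃ β)
    (he : ∀ a b, R a b ↔ R' (e a) (e b)) : (core R').ncard = (core R).ncard := by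
  have h : core R' = e '' core R := by
    ext b
    constructor
    · rintro ⟨a, ha⟩
      refine ⟨e.symm b, ⟨e.symm a, fun N => ?_⟩, e.apply_symm_apply b⟩
      obtain ⟨n, hn, h⟩ := ha N
      refine ⟨n, hn, (steps_equiv e he n _ _).2 ?_⟩
      rwa [e.apply_symm_apply, e.apply_symm_apply]
    · rintro ⟨b, ⟨a, ha⟩, rfl⟩
      refine ⟨e a, fun N => ?_⟩
      obtain ⟨n, hn, h⟩ := ha N
      exact ⟨n, hn, (steps_equiv e he n _ _).1 h⟩
  rw [h, ncard_image_of_injective _ e.injective]

/-- the size of the minimal attractor -/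
noncomputable def nu (F : Sph → Sph) (P : Set Sph) : ℕ := (core (Pullback F P)).ncard

lemma PIso.nu {F : Sph → Sph} {P : Set Sph} {G : Sph → Sph} {P' : Set Sph}
    (h : PIso F P G P') : nu F P = nu G P' := by
  obtain ⟨e, he⟩ := h
  exact (core_equiv e he).symm

/-- the bound for the normal forms -/
theorem bound_normal (d m : ℕ) : ∃ b, ∀ v : Par d m, Valid v → nu (Gm v) (P0 v.2.2) ≤ b := by
  set V : Set (Ix d m → ℝ) := {v | Valid (dec d m v)} with hV
  have hfin : Finite (ConnectedComponents V) := Pool.Agent.Helper334_SA.sa_comp (sa_valid d m)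
  let f : V → ℕ := fun v => nu (Gm (dec d m v.1)) (P0 (dec d m v.1).2.2)
  have hloc : IsLocallyConstant f := by
    rw [IsLocallyConstant.iff_eventually_eq]
    intro v
    have h1 := loc_const (dec d m v.1) v.2
    have h2 : Continuous fun w : V => dec d m w.1 := (continuous_dec d m).comp continuous_subtype_val
    filter_upwards [h2.continuousAt.eventually h1] with w hw
    exact (hw w.2).nu
  have hc : Continuous f := hloc.continuous
  obtain ⟨b, hb⟩ := (Set.finite_range hc.connectedComponentsLift).bddAbove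
  refine ⟨b, fun v hv => ?_⟩
  obtain ⟨w, rfl⟩ := dec_surj d m v
  have h1 : hc.connectedComponentsLift (ConnectedComponents.mk (⟨w, hv⟩ : V)) = f ⟨w, hv⟩ :=
    hc.connectedComponentsLift_apply_coe _
  have h2 := hb ⟨ConnectedComponents.mk (⟨w, hv⟩ : V), rfl⟩
  rw [h1] at h2
  exact h2

lemma nu_empty (F : Sph → Sph) : nu F ∅ ≤ 2 := by
  unfold nu
  have h1 : ∀ γ : {γ : Set Sph // IsEssCurve ∅ γ}, γ.1 = univ := by
    rintro ⟨γ, hγ⟩
    refine eq_univ_of_forall fun x => ?_
    by_contra hx
    obtain ⟨p, hp, -⟩ := hγ.2.2 x hx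
    exact hp
  have h2 : Subsingleton (Quot fun γ δ : {γ : Set Sph // IsEssCurve ∅ γ} =>
      CurveIsotopic ∅ γ.1 δ.1) := by
    constructor
    intro a b
    induction a using Quot.ind
    induction b using Quot.ind
    congr 1
    exact Subtype.ext ((h1 _).trans (h1 _).symm)
  have h3 : Finite (CurveClass ∅) := inferInstanceAs (Finite (Option _))
  have h4 : Nat.card (CurveClass ∅) ≤ 2 := by
    show Nat.card (Option _) ≤ 2
    rw [Finite.card_option]
    have := Finite.card_le_one_iff_subsingleton.2 h2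
    omega
  exact (Set.ncard_le_card _).trans h4

/-- **The theorem.** -/
theorem main : ∃ B : ℕ → ℕ → ℕ, ∀ (d : ℕ) (F : Sph → Sph), IsRationalThurston d F →
    (∃ A, IsAttractor (Pullback F (postcrit F)) A) →
    ∃ A, IsAttractor (Pullback F (postcrit F)) A ∧
      (∀ A', IsAttractor (Pullback F (postcrit F)) A' → A ⊆ A') ∧
      A.ncard ≤ B (postcrit F).ncard d := by
  choose b hb using bound_normal
  refine ⟨fun n d => b d (n - 1) + 2, fun d F hF hA => ?_⟩
  refine ⟨core (Pullback F (postcrit F)), core_attractor hA, fun A' hA' => core_subset hA', ?_⟩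
  show nu F (postcrit F) ≤ _
  obtain ⟨⟨G, hG, hFG⟩, hfin⟩ := hF
  rcases eq_empty_or_nonempty (postcrit F) with hemp | hne
  · rw [hemp]
    exact (nu_empty F).trans (Nat.le_add_left _ _)
  · obtain ⟨h1, h₀, h2⟩ := thurston_piso hFG
    have hcard : (postcrit G).ncard = (postcrit F).ncard := by
      rw [← h2, ncard_image_of_injective _ h₀.injective]
    have hfinG : (postcrit G).Finite := h2 ▸ hfin.image h₀
    obtain ⟨m, hm⟩ : ∃ m, (postcrit F).ncard = m + 1 :=
      ⟨(postcrit F).ncard - 1, by have := (ncard_pos hfin).2 hne; omega⟩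
    have hneG : (postcrit G).Nonempty := by rw [← h2]; exact hne.image h₀
    rw [h1.nu, hm]
    refine le_trans ?_ (Nat.le_add_right _ _)
    show nu G (postcrit G) ≤ b d (m + 1 - 1)
    rw [Nat.add_sub_cancel]
    by_cases hinf : (∞ : Sph) ∈ postcrit G
    · obtain ⟨v, hv, hvG, hvP⟩ := normal_form (m := m) hG hfinG hinf (by omega)
      rw [← hvP, ← hvG]
      exact hb d m v hv
    · obtain ⟨y, hy⟩ := hneG
      obtain ⟨c, rfl⟩ := OnePoint.ne_infty_iff_exists.1 (fun h => hinf (h ▸ hy) : y ≠ ∞)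
      set μ := Pool.Agent.Helper114.Herman.mob c with hμ
      have hconj : ∀ x, μ (G x) = (fun x => μ (G (μ.symm x))) (μ x) := by
        intro x
        show μ (G x) = μ (G (μ.symm (μ x)))
        rw [μ.symm_apply_apply]
      have h3 := piso_of_conj (F := G) (G := fun x => μ (G (μ.symm x))) (P := postcrit G) μ hconj
      have h4 : μ '' postcrit G = postcrit (fun x => μ (G (μ.symm x))) :=
        postcrit_image (F := G) (G := fun x => μ (G (μ.symm x))) μ μ hconj fun _ _ => rfl
      rw [h3.nu, h4]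
      obtain ⟨v, hv, hvG, hvP⟩ := normal_form (m := m) (rational_conj hG c)
        (h4 ▸ hfinG.image μ)
        (by rw [← h4]; exact ⟨_, hy, Pool.Agent.Helper114.Herman.mob_self c⟩)
        (by rw [← h4, ncard_image_of_injective _ μ.injective]; omega)
      have h5 := hb d m v hv
      rw [hvP, hvG] at h5
      exact h5

end Pool.Agent.J4.H71.TM
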