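import Pool.Agent.J4.H71.TM.Cond

/-! Moving curves and maps. -/

set_option autoImplicit false
set_option maxHeartbeats 4000000

open Set Topology Filter
open scoped OnePoint

namespace Pool.Agent.J4.H71.TM

/-- the marked set -/
def P0 {m : ℕ} (p : Fin m → ℂ) : Set Sph := insert ∞ (range fun i => ((p i : ℂ) : Sph))

lemma coe_mem_P0 {m : ℕ} (p : Fin m → ℂ) (a : ℂ) : ((a : ℂ) : Sph) ∈ P0 p ↔ ∃ i, a = p i := by
  constructor
  · rintro (h | ⟨i, hi⟩)
    · exact absurd h (OnePoint.coe_ne_infty a)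
    · exact ⟨i, (OnePoint.coe_injective hi).symm⟩
  · rintro ⟨i, rfl⟩
    exact Or.inr ⟨i, rfl⟩

/-- a curve which avoids infinity -/
lemma lift_curve {X : Type*} [TopologicalSpace X] (f : X → Sph) (hf : Continuous f)
    (h : ∀ x, f x ≠ ∞) : ∃ g : X → ℂ, Continuous g ∧ ∀ x, ((g x : ℂ) : Sph) = f x := by
  choose g hg using fun x => OnePoint.ne_infty_iff_exists.1 (h x)
  refine ⟨g, ?_, hg⟩
  rw [OnePoint.isOpenEmbedding_coe.isEmbedding.continuous_iff]
  have : (fun x : ℂ => (x : Sph)) ∘ g = f := funext hg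
  exact this ▸ hf

lemma scc_cv (q : Circle → ℂ) (hq : Continuous q) (hi : Function.Injective q) : IsSCC (cv q) :=
  ⟨fun z => ((q z : ℂ) : Sph), OnePoint.continuous_coe.comp hq,
    OnePoint.coe_injective.comp hi, rfl⟩

lemma disj_cv {P : Set Sph} (q : Circle → ℂ) (h : ∀ z, ((q z : ℂ) : Sph) ∉ P) :
    Disjoint (cv q) P := by
  rw [Set.disjoint_left]
  rintro _ ⟨z, rfl⟩
  exact h z

/-- the class is invariant under isotopy -/
lemma hasClass_move {P : Set Sph} {c : CurveClass P} (V : unitInterval → Circle → ℂ)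
    (hV : Continuous (fun q : unitInterval × Circle => V q.1 q.2))
    (hi : ∀ t, Function.Injective (V t)) (hP : ∀ t z, ((V t z : ℂ) : Sph) ∉ P)
    (hc : HasClass P (cv (V 0)) c) : HasClass P (cv (V 1)) c := by
  have h1 : Continuous (V 1) := hV.comp (Continuous.prodMk_right 1)
  have k1 := scc_cv (V 1) h1 (hi 1)
  have k2 := disj_cv (V 1) (hP 1)
  have k3 := essential_isotopy V hV hi hP
  have k4 : CurveIsotopic P (cv (V 0)) (cv (V 1)) :=
    ⟨fun t z => ((V t z : ℂ) : Sph), OnePoint.continuous_coe.comp hV,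
      fun t => OnePoint.coe_injective.comp (hi t), hP, rfl, rfl⟩
  refine ⟨k1, k2, ?_⟩
  rcases hc.2.2 with ⟨g4, rfl⟩ | ⟨g4, rfl⟩
  · exact Or.inl ⟨⟨k1, k2, k3.1 g4.2.2⟩, congrArg some (Quot.sound k4)⟩
  · exact Or.inr ⟨fun g5 => g4 (k3.2 g5), rfl⟩

lemma exists_param {P : Set Sph} (hP : (∞ : Sph) ∈ P) {γ : Set Sph} {c : CurveClass P}
    (hc : HasClass P γ c) :
    ∃ q : Circle → ℂ, Continuous q ∧ Function.Injective q ∧ (∀ z, ((q z : ℂ) : Sph) ∉ P) ∧
      γ = cv q := by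
  obtain ⟨⟨f, hf, hi, rfl⟩, h2, -⟩ := hc
  have hfP : ∀ z, f z ∉ P := fun z hz => Set.disjoint_left.1 h2 (mem_range_self z) hz
  obtain ⟨g, hg, hgf⟩ := lift_curve f hf fun z hz => hfP z (hz ▸ hP)
  have hgf' : (fun z => ((g z : ℂ) : Sph)) = f := funext hgf
  refine ⟨g, hg, fun a b hab => hi ?_, fun z => by rw [hgf]; exact hfP z, ?_⟩
  · rw [← hgf, ← hgf, hab]
  · rw [← hgf']; rfl

variable {d m : ℕ}

/-- the preimage of the curve `q` -/
def Yv (v : Par d m) (q : Circle → ℂ) : Set ℂ := {x | ∃ z, ev v.1 x = q z * ev v.2.1 x}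

/-- the component of the preimage, pulled back by `φ`, in the sphere -/
def CC (v : Par d m) (φ : ℂ ≃ₜ ℂ) (q : Circle → ℂ) (x : ℂ) : Set Sph :=
  (fun y : ℂ => (y : Sph)) '' (φ.symm '' connectedComponentIn (Yv v q) x)

/-- **Moving a map, the marked points and a curve.** -/
theorem move {p : Fin m → ℂ} (v : unitInterval → Par d m) (hv : Continuous v)
    (φ : unitInterval → ℂ ≃ₜ ℂ)
    (hφ : Continuous (fun q : unitInterval × ℂ => (φ q.1).symm q.2))
    (hφp : ∀ t i, φ t (p i) = (v t).2.2 i)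
    (H : unitInterval → Circle → ℂ)
    (hH : Continuous (fun q : unitInterval × Circle => H q.1 q.2))
    (hinj : ∀ t, Function.Injective (H t)) (hcond : ∀ t z, Cond (v t) (H t z))
    (c : CurveClass (P0 p)) (x₀ : ℂ) (hx₀ : x₀ ∈ Yv (v 0) (H 0))
    (hc : HasClass (P0 p) (CC (v 0) (φ 0) (H 0) x₀) c) :
    ∃ x₁ ∈ Yv (v 1) (H 1), HasClass (P0 p) (CC (v 1) (φ 1) (H 1) x₁) c := by
  obtain ⟨f, hf, hfi, hfP, hfr⟩ := exists_param (mem_insert _ _) hc
  -- the parametrization of the component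
  have hw1 : range (fun z => φ 0 (f z)) = connectedComponentIn (Yv (v 0) (H 0)) x₀ := by
    have h1 : (fun y : ℂ => (y : Sph)) '' ((φ 0).symm '' connectedComponentIn
        (Yv (v 0) (H 0)) x₀) = (fun y : ℂ => (y : Sph)) '' range f := by
      rw [← cv_eq]; exact hfr
    have h2 := OnePoint.coe_injective.image_injective h1
    have h3 : (fun z => φ 0 (f z)) = φ 0 ∘ f := rfl
    rw [h3, range_comp, ← h2, ← Set.image_comp]
    have h4 : (φ 0 : ℂ → ℂ) ∘ (φ 0).symm = id := by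
      funext x; exact (φ 0).apply_symm_apply x
    rw [h4, image_id]
  obtain ⟨W, hW, hWi, hW0, hWY, y₀, hy₀, hWr⟩ := trans (fun t => (v t).1) (fun t => (v t).2.1) H
    (continuous_fst.comp hv) ((continuous_fst.comp continuous_snd).comp hv) hH hinj
    (fun t z => (hcond t z).1) (fun t z => (hcond t z).2.1) x₀ hx₀ (fun z => φ 0 (f z))
    ((φ 0).continuous.comp hf) ((φ 0).injective.comp hfi) hw1
  let V : unitInterval → Circle → ℂ := fun t z => (φ t).symm (W t z)
  have hV : Continuous (fun q : unitInterval × Circle => V q.1 q.2) :=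
    hφ.comp (continuous_fst.prodMk hW)
  have hVP : ∀ t z, ((V t z : ℂ) : Sph) ∉ P0 p := by
    intro t z hz
    obtain ⟨i, hi⟩ := (coe_mem_P0 p _).1 hz
    have h1 : W t z = (v t).2.2 i := by
      rw [← hφp, ← hi]
      exact ((φ t).apply_symm_apply _).symm
    obtain ⟨z', hz'⟩ := hWY t z
    rw [h1] at hz'
    exact (hcond t z').2.2 i hz'
  have hV0 : cv (V 0) = CC (v 0) (φ 0) (H 0) x₀ := by
    have h1 : V 0 = f := by
      funext z
      show (φ 0).symm (W 0 z) = f z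
      rw [hW0]
      exact (φ 0).symm_apply_apply _
    rw [h1]
    exact hfr.symm
  have hV1 : cv (V 1) = CC (v 1) (φ 1) (H 1) y₀ := by
    unfold CC
    have h1 : connectedComponentIn (Yv (v 1) (H 1)) y₀ = range (W 1) := hWr.symm
    rw [h1, ← range_comp, ← range_comp]
    rfl
  have := hasClass_move V hV (fun t => (φ t).symm.injective.comp (hWi t)) hVP (hV0 ▸ hc)
  exact ⟨y₀, hy₀, hV1 ▸ this⟩

/-- the pullback of curves in `K` -/
def PB (p : Fin m → ℂ) (v : Par d m) (φ : ℂ ≃ₜ ℂ) (K : Set ℂ) (c c' : CurveClass (P0 p)) : Prop :=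
  ∃ q : Circle → ℂ, Continuous q ∧ Function.Injective q ∧ (∀ z i, q z ≠ p i) ∧ (∀ z, q z ∈ K) ∧
    HasClass (P0 p) (cv q) c ∧ ∃ x ∈ Yv v (fun z => φ (q z)),
      HasClass (P0 p) (CC v φ (fun z => φ (q z)) x) c'

/-- moving the curve -/
lemma pb_step {p : Fin m → ℂ} {v : Par d m} (hv : Valid v) (φ : ℂ ≃ₜ ℂ)
    (hφp : ∀ i, φ (p i) = v.2.2 i) {c c' : CurveClass (P0 p)} {K : Set ℂ}
    (q : Circle → ℂ) (hc : HasClass (P0 p) (cv q) c)
    (x : ℂ) (hx : x ∈ Yv v (fun z => φ (q z)))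
    (hc' : HasClass (P0 p) (CC v φ (fun z => φ (q z)) x) c')
    (W : unitInterval → Circle → ℂ)
    (hW : Continuous (fun q : unitInterval × Circle => W q.1 q.2))
    (hWi : ∀ t, Function.Injective (W t)) (hW0 : W 0 = q) (hWP : ∀ t z i, W t z ≠ p i)
    (hK : ∀ z, W 1 z ∈ K) : PB p v φ K c c' := by
  subst hW0
  have hWP' : ∀ t z, ((W t z : ℂ) : Sph) ∉ P0 p := by
    intro t z hz
    obtain ⟨i, hi⟩ := (coe_mem_P0 p _).1 hz
    exact hWP t z i hi
  have h1 := hasClass_move W hW hWi hWP' hc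
  have h2 := move (p := p) (fun _ => v) continuous_const (fun _ => φ)
    (φ.symm.continuous.comp continuous_snd) (fun _ => hφp) (fun t z => φ (W t z))
    (φ.continuous.comp hW) (fun t => φ.injective.comp (hWi t))
    (fun t z => cond_of_valid hv fun i hi => by
      rw [← hφp] at hi
      exact hWP t z i (φ.injective hi)) c' x hx hc'
  exact ⟨W 1, hW.comp (Continuous.prodMk_right 1), hWi 1, hWP 1, hK, h1, h2⟩

/-- the compact set -/
def KK (p : Fin m → ℂ) (ε R : ℝ) : Set ℂ := {y | ‖y‖ ≤ 2 * R ∧ ∀ i, ε ≤ ‖y - p i‖}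

lemma isCompact_KK (p : Fin m → ℂ) (ε R : ℝ) : IsCompact (KK p ε R) := by
  have h1 : KK p ε R = Metric.closedBall (0 : ℂ) (2 * R) ∩ {y | ∀ i, ε ≤ ‖y - p i‖} := by
    ext y
    simp [KK]
  rw [h1]
  refine (isCompact_closedBall _ _).inter_right ?_
  rw [ofPred_forall]
  refine isClosed_iInter fun i => isClosed_le continuous_const ?_
  fun_prop

/-- every curve can be moved to the compact set -/
theorem pb_compact {p : Fin m → ℂ} {v : Par d m} (hv : Valid v) (φ : ℂ ≃ₜ ℂ)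
    (hφp : ∀ i, φ (p i) = v.2.2 i) (ε R : ℝ) (hε : 0 < ε) (hR : 0 < R)
    (hp : ∀ i j, i ≠ j → 4 * ε ≤ ‖p i - p j‖) (hpR : ∀ i, ‖p i‖ + 2 * ε ≤ R)
    (c c' : CurveClass (P0 p)) (h : PB p v φ univ c c') : PB p v φ (KK p ε R) c c' := by
  classical
  have key : ∀ T : Finset (Fin m), PB p v φ {y | ‖y‖ ≤ 2 * R ∧ ∀ i ∈ T, ε ≤ ‖y - p i‖} c c' := by
    intro T
    induction T using Finset.induction_on with
    | empty =>
      obtain ⟨q, hq, hqi, hqp, -, hc, x, hx, hc'⟩ := h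
      obtain ⟨W, h1, h2, h3, h4, h5⟩ := push_infty R hR q hq hqi
      refine pb_step hv φ hφp q hc x hx hc' W h1 h2 h3 ?_ fun z => ⟨h5 z, by simp⟩
      intro t z i hi
      rcases h4 t z with h6 | h6
      · exact hqp z i (h6.symm.trans hi)
      · have := hpR i
        rw [hi] at h6
        linarith
    | insert j T hj ih =>
      obtain ⟨q, hq, hqi, hqp, hqK, hc, x, hx, hc'⟩ := ih
      obtain ⟨W, h1, h2, h3, h4, h5⟩ := push_finite (p j) ε hε q hq hqi fun z => hqp z j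
      have hfar : ∀ t z i, i ≠ j → ‖W t z - p j‖ < 2 * ε → 2 * ε ≤ ‖W t z - p i‖ := by
        intro t z i hij hlt
        have h6 := hp i j hij
        have h7 : ‖p i - p j‖ ≤ ‖W t z - p i‖ + ‖W t z - p j‖ := by
          have : p i - p j = -(W t z - p i) + (W t z - p j) := by ring
          rw [this]
          refine (norm_add_le _ _).trans ?_
          rw [norm_neg]
        linarith
      refine pb_step hv φ hφp q hc x hx hc' W h1 h2 h3 ?_ fun z => ⟨?_, ?_⟩
      · intro t z i hi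
        rcases h4 t z with h6 | ⟨h6, h7⟩
        · exact hqp z i (h6.symm.trans hi)
        · by_cases hij : i = j
          · exact h6 (hij ▸ hi)
          · have := hfar t z i hij h7
            rw [hi, sub_self, norm_zero] at this
            linarith
      · rcases h4 1 z with h6 | ⟨h6, h7⟩
        · rw [h6]; exact (hqK z).1
        · have h8 : ‖W 1 z‖ ≤ ‖W 1 z - p j‖ + ‖p j‖ := by
            simpa using norm_add_le (W 1 z - p j) (p j)
          have := hpR j
          linarith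
      · intro i hi
        rcases h4 1 z with h6 | ⟨h6, h7⟩
        · rcases Finset.mem_insert.1 hi with rfl | hi
          · exact h5 z
          · rw [h6]; exact (hqK z).2 i hi
        · by_cases hij : i = j
          · rw [hij]; exact h5 z
          · have := hfar 1 z i hij h7
            linarith
  obtain ⟨q, h1, h2, h3, h4, h5⟩ := key Finset.univ
  exact ⟨q, h1, h2, h3, fun z => ⟨(h4 z).1, fun i => (h4 z).2 i (Finset.mem_univ i)⟩, h5⟩

/-- the homeomorphism of the parameter `v` -/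
noncomputable def hmo {p : Fin m → ℂ} {ε : ℝ} (hε : 0 < ε) (v : Par d m)
    (h : ∑ i, ‖v.2.2 i - p i‖ ≤ ε) : ℂ ≃ₜ ℂ := hom p hε (fun i => v.2.2 i - p i) h

/-- moving the map -/
theorem pb_move {p : Fin m → ℂ} {ε : ℝ} (hε : 0 < ε) (hp : ∀ i j, i ≠ j → 2 * ε ≤ ‖p i - p j‖)
    (K : Set ℂ) (v v' : Par d m) (h : ∑ i, ‖v.2.2 i - p i‖ ≤ ε) (h' : ∑ i, ‖v'.2.2 i - p i‖ ≤ ε)
    (hseg : ∀ t : unitInterval, ∀ y ∈ K, Cond (v + t.1 • (v' - v))
      (phi p ε (fun i => (v + t.1 • (v' - v)).2.2 i - p i) y))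
    (c c' : CurveClass (P0 p)) (hc : PB p v (hmo hε v h) K c c') :
    PB p v' (hmo hε v' h') K c c' := by
  obtain ⟨q, hq, hqi, hqp, hqK, hqc, x, hx, hxc⟩ := hc
  let vt : unitInterval → Par d m := fun t => v + t.1 • (v' - v)
  have hvt : Continuous vt := by
    show Continuous fun t : unitInterval => v + t.1 • (v' - v)
    fun_prop
  have hv0 : vt 0 = v := by show v + (0 : ℝ) • (v' - v) = v; simp
  have hv1 : vt 1 = v' := by show v + (1 : ℝ) • (v' - v) = v'; simp
  have hbt : ∀ t, ∑ i, ‖(vt t).2.2 i - p i‖ ≤ ε := by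
    intro t
    have h1 : ∀ i ∈ Finset.univ, ‖(vt t).2.2 i - p i‖ ≤
        (1 - t.1) * ‖v.2.2 i - p i‖ + t.1 * ‖v'.2.2 i - p i‖ := by
      intro i _
      have h2 : (vt t).2.2 i - p i = ((1 - t.1 : ℝ) : ℂ) * (v.2.2 i - p i) +
          ((t.1 : ℝ) : ℂ) * (v'.2.2 i - p i) := by
        show v.2.2 i + t.1 • (v'.2.2 i - v.2.2 i) - p i = _
        rw [Complex.real_smul]
        push_cast
        ring
      rw [h2]
      refine (norm_add_le _ _).trans ?_
      rw [norm_mul, norm_mul, Complex.norm_real, Complex.norm_real, Real.norm_of_nonneg t.2.1,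
        Real.norm_of_nonneg (by linarith [t.2.2] : (0 : ℝ) ≤ 1 - t.1)]
    refine (Finset.sum_le_sum h1).trans ?_
    rw [Finset.sum_add_distrib, ← Finset.mul_sum, ← Finset.mul_sum]
    have h3 := t.2.1
    have h4 := t.2.2
    nlinarith
  have hpc : Continuous fun q : unitInterval × ℂ =>
      phi p ε (fun i => (vt q.1).2.2 i - p i) q.2 := by
    refine (continuous_phi (ε := ε) p).comp (Continuous.prodMk ?_ continuous_snd)
    have : Continuous fun q : unitInterval × ℂ => vt q.1 := hvt.comp continuous_fst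
    fun_prop
  have hx' : x ∈ Yv (vt 0) (fun z => hmo hε (vt 0) (hbt 0) (q z)) := by
    have : ∀ (u : Par d m) (hu : ∑ i, ‖u.2.2 i - p i‖ ≤ ε), u = v →
        x ∈ Yv u (fun z => hmo hε u hu (q z)) := by
      rintro u hu rfl; exact hx
    exact this _ _ hv0
  have hxc' : HasClass (P0 p) (CC (vt 0) (hmo hε (vt 0) (hbt 0))
      (fun z => hmo hε (vt 0) (hbt 0) (q z)) x) c' := by
    have : ∀ (u : Par d m) (hu : ∑ i, ‖u.2.2 i - p i‖ ≤ ε), u = v →
        HasClass (P0 p) (CC u (hmo hε u hu) (fun z => hmo hε u hu (q z)) x) c' := by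
      rintro u hu rfl; exact hxc
    exact this _ _ hv0
  have hva : ∀ t y, hmo hε (vt t) (hbt t) y = phi p ε (fun i => (vt t).2.2 i - p i) y :=
    fun t y => hom_apply p hε _ _ y
  have hmv := move (p := p) vt hvt (fun t => hmo hε (vt t) (hbt t))
    (continuous_inv p hε (fun t i => (vt t).2.2 i - p i) (by fun_prop) hbt)
    (fun t i => by rw [hva, phi_p p hε hp]; ring)
    (fun t z => hmo hε (vt t) (hbt t) (q z))
    (by
      simp only [hva]
      exact hpc.comp (continuous_fst.prodMk (hq.comp continuous_snd)))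
    (fun t => (hmo hε (vt t) (hbt t)).injective.comp hqi)
    (fun t z => by
      rw [hva]
      exact hseg t (q z) (hqK z)) c' x hx' hxc'
  obtain ⟨x₁, hx₁, hx₁c⟩ := hmv
  refine ⟨q, hq, hqi, hqp, hqK, hqc, x₁, ?_, ?_⟩
  · have : ∀ (u : Par d m) (hu : ∑ i, ‖u.2.2 i - p i‖ ≤ ε), vt 1 = u →
        x₁ ∈ Yv u (fun z => hmo hε u hu (q z)) := by
      rintro u hu rfl; exact hx₁
    exact this _ _ hv1
  · have : ∀ (u : Par d m) (hu : ∑ i, ‖u.2.2 i - p i‖ ≤ ε), vt 1 = u →
        HasClass (P0 p) (CC u (hmo hε u hu) (fun z => hmo hε u hu (q z)) x₁) c' := by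
      rintro u hu rfl; exact hx₁c
    exact this _ _ hv1

end Pool.Agent.J4.H71.TM
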