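import Pool.Agent.J4.H71.TM.Loc
import Pool.Agent.H712R2.Par
import Pool.Agent.Helper114.Fatou

/-! The normal form of a rational map with finite postcritical set. -/

set_option autoImplicit false
set_option maxHeartbeats 4000000

open Set Topology Filter
open scoped OnePoint

namespace Pool.Agent.J4.H71.TM

/-! ### binary forms -/

/-- `f` is a binary form of degree `d` -/
def IsF (d : ℕ) (f : ℂ → ℂ → ℂ) : Prop := ∃ a : Fin (d + 1) → ℂ, ∀ x y, f x y = form a x y

lemma IsF.add {d : ℕ} {f g : ℂ → ℂ → ℂ} (hf : IsF d f) (hg : IsF d g) :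
    IsF d (fun x y => f x y + g x y) := by
  obtain ⟨a, ha⟩ := hf
  obtain ⟨b, hb⟩ := hg
  refine ⟨fun i => a i + b i, fun x y => ?_⟩
  beta_reduce
  rw [ha, hb]
  unfold form
  rw [← Finset.sum_add_distrib]
  exact Finset.sum_congr rfl fun i _ => by ring

lemma IsF.smul {d : ℕ} {f : ℂ → ℂ → ℂ} (hf : IsF d f) (c : ℂ) :
    IsF d (fun x y => c * f x y) := by
  obtain ⟨a, ha⟩ := hf
  refine ⟨fun i => c * a i, fun x y => ?_⟩
  beta_reduce
  rw [ha]
  unfold form
  rw [Finset.mul_sum]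
  exact Finset.sum_congr rfl fun i _ => by ring

lemma IsF.zero {d : ℕ} : IsF d (fun _ _ => 0) := ⟨fun _ => 0, fun x y => by simp [form]⟩

lemma IsF.sum {d : ℕ} {α : Type*} (s : Finset α) {f : α → ℂ → ℂ → ℂ} (hf : ∀ i ∈ s, IsF d (f i)) :
    IsF d (fun x y => ∑ i ∈ s, f i x y) := by
  classical
  induction s using Finset.induction_on with
  | empty => simpa using IsF.zero
  | insert i s hi ih =>
    have h1 := (hf i (Finset.mem_insert_self i s)).add
      (ih fun j hj => hf j (Finset.mem_insert_of_mem hj))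
    obtain ⟨a, ha⟩ := h1
    exact ⟨a, fun x y => by beta_reduce; rw [Finset.sum_insert hi]; exact ha x y⟩

lemma IsF.mulx {d : ℕ} {f : ℂ → ℂ → ℂ} (hf : IsF d f) : IsF (d + 1) (fun x y => x * f x y) := by
  obtain ⟨a, ha⟩ := hf
  refine ⟨Fin.cons 0 a, fun x y => ?_⟩
  beta_reduce
  rw [ha]
  unfold form
  conv_rhs => rw [Fin.sum_univ_succ]
  rw [Finset.mul_sum]
  simp only [Fin.cons_zero, zero_mul, zero_add, Fin.cons_succ, Fin.val_succ]
  refine Finset.sum_congr rfl fun i _ => ?_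
  have : d + 1 - ((i : ℕ) + 1) = d - i := by omega
  rw [this]
  ring

lemma IsF.muly {d : ℕ} {f : ℂ → ℂ → ℂ} (hf : IsF d f) : IsF (d + 1) (fun x y => y * f x y) := by
  obtain ⟨a, ha⟩ := hf
  refine ⟨Fin.snoc a 0, fun x y => ?_⟩
  beta_reduce
  rw [ha]
  unfold form
  conv_rhs => rw [Fin.sum_univ_castSucc]
  rw [Finset.mul_sum]
  simp only [Fin.snoc_last, zero_mul, add_zero, Fin.snoc_castSucc, Fin.val_castSucc]
  refine Finset.sum_congr rfl fun i _ => ?_
  have : d + 1 - (i : ℕ) = (d - i) + 1 := by have := i.2; omega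
  rw [this]
  ring

lemma IsF.lin {d : ℕ} {f : ℂ → ℂ → ℂ} (hf : IsF d f) (α β : ℂ) :
    IsF (d + 1) (fun x y => (α * x + β * y) * f x y) := by
  obtain ⟨a, ha⟩ := (hf.mulx.smul α).add (hf.muly.smul β)
  exact ⟨a, fun x y => by rw [← ha]; ring⟩

lemma IsF.linpow {d : ℕ} {f : ℂ → ℂ → ℂ} (hf : IsF d f) (α β : ℂ) (n : ℕ) :
    IsF (n + d) (fun x y => (α * x + β * y) ^ n * f x y) := by
  induction n with
  | zero =>
    obtain ⟨a, ha⟩ := hf
    have h : IsF d (fun x y => (α * x + β * y) ^ 0 * f x y) :=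
      ⟨a, fun x y => by rw [← ha]; ring⟩
    rwa [zero_add]
  | succ n ih =>
    obtain ⟨a, ha⟩ := ih.lin α β
    have h : IsF (n + d + 1) (fun x y => (α * x + β * y) ^ (n + 1) * f x y) :=
      ⟨a, fun x y => by rw [← ha]; ring⟩
    have : n + 1 + d = n + d + 1 := by omega
    rwa [this]

lemma IsF.one : IsF 0 (fun _ _ => 1) := ⟨fun _ => 1, fun x y => by simp [form]⟩

/-- substitution -/
lemma isF_subst {d : ℕ} (a : Fin (d + 1) → ℂ) (α β γ δ : ℂ) :
    IsF d (fun x y => form a (α * x + β * y) (γ * x + δ * y)) := by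
  unfold form
  refine IsF.sum _ fun i _ => ?_
  have h1 := (IsF.one.linpow γ δ (d - i)).linpow α β (i : ℕ)
  have h2 : (i : ℕ) + (d - i + 0) = d := by have := i.2; omega
  rw [h2] at h1
  obtain ⟨b, hb⟩ := h1.smul (a i)
  exact ⟨b, fun x y => by rw [← hb]; ring⟩

/-! ### conjugation -/

open Pool.Agent.Helper114.Herman in
lemma mob_pt (c : ℂ) {u v : ℂ} (h : ¬ (u = 0 ∧ v = 0)) : mob c (pt u v) = pt v (u - c * v) := by
  have h' : u ≠ 0 ∨ v ≠ 0 := by
    by_cases hu : u = 0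
    · exact Or.inr fun hv => h ⟨hu, hv⟩
    · exact Or.inl hu
  exact mob_pr c h'

open Pool.Agent.Helper114.Herman in
lemma mob_symm_pt (c : ℂ) {x y : ℂ} (h : ¬ (x = 0 ∧ y = 0)) :
    (mob c).symm (pt x y) = pt (y + c * x) x := by
  rw [Homeomorph.symm_apply_eq, mob_pt]
  · congr 1; ring
  · rintro ⟨h1, h2⟩
    refine h ⟨h2, ?_⟩
    rw [h2] at h1
    simpa using h1

open Pool.Agent.Helper114.Herman in
/-- a conjugate of a rational map is rational -/
lemma rational_conj {d : ℕ} {G : Sph → Sph} (hG : IsRationalMap d G) (c : ℂ) :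
    IsRationalMap d (fun x => mob c (G ((mob c).symm x))) := by
  obtain ⟨a, b, hno, hG⟩ := hG
  obtain ⟨a', ha'⟩ := isF_subst b c 1 1 0
  obtain ⟨b', hb'⟩ := (isF_subst a c 1 1 0).add ((isF_subst b c 1 1 0).smul (-c))
  have hs : ∀ x y : ℂ, c * x + 1 * y = y + c * x ∧ 1 * x + 0 * y = x := fun x y =>
    ⟨by ring, by ring⟩
  have ha2 : ∀ x y, form a' x y = form b (y + c * x) x := by
    intro x y; rw [← ha']; beta_reduce; rw [(hs x y).1, (hs x y).2]
  have hb2 : ∀ x y, form b' x y = form a (y + c * x) x - c * form b (y + c * x) x := by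
    intro x y; rw [← hb']; beta_reduce; rw [(hs x y).1, (hs x y).2]; ring
  refine ⟨a', b', fun x y h1 h2 => ?_, fun x y hxy => ?_⟩
  · rw [ha2] at h1
    rw [hb2, h1, mul_zero, sub_zero] at h2
    obtain ⟨h3, h4⟩ := hno _ _ h2 h1
    refine ⟨h4, ?_⟩
    rw [h4] at h3
    simpa using h3
  · show mob c (G ((mob c).symm (pt x y))) = _
    have h1 : ¬ (y + c * x = 0 ∧ x = 0) := by
      rintro ⟨h1, h2⟩
      rw [h2] at h1
      exact hxy ⟨h2, by simpa using h1⟩
    rw [mob_symm_pt c hxy, hG _ _ h1, mob_pt, ha2, hb2]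
    rintro ⟨h2, h3⟩
    exact h1 (hno _ _ h2 h3)

/-! ### forward invariance -/

lemma postcrit_map {G : Sph → Sph} {y : Sph} (hy : y ∈ postcrit G) : G y ∈ postcrit G := by
  obtain ⟨n, hn, x, hx, rfl⟩ := hy
  exact ⟨n + 1, by omega, x, hx, Function.iterate_succ_apply' G n x⟩

lemma crit_map {G : Sph → Sph} {x : Sph} (hx : x ∈ crit G) : G x ∈ postcrit G :=
  ⟨1, le_rfl, x, hx, rfl⟩

variable {d m : ℕ}

lemma hasDerivAt_ev (a : Fin (d + 1) → ℂ) (x : ℂ) : HasDerivAt (ev a) (dv a x) x := by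
  unfold ev dv
  exact HasDerivAt.fun_sum fun i _ => (hasDerivAt_pow (i : ℕ) x).const_mul (a i)

lemma crit_of_wronskian (v : Par d m) (x : ℂ) (hb : ev v.2.1 x ≠ 0)
    (hw : dv v.1 x * ev v.2.1 x = ev v.1 x * dv v.2.1 x) : (x : Sph) ∈ crit (Gm v) := by
  rintro ⟨U, hU, hi⟩
  have hcb : Continuous (ev v.2.1) := continuous_ev.comp (continuous_const.prodMk continuous_id)
  have h1 : (fun z : ℂ => (z : Sph)) ⁻¹' U ∈ 𝓝 x :=
    OnePoint.continuous_coe.continuousAt.preimage_mem_nhds hU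
  have h2 : {z | ev v.2.1 z ≠ 0} ∈ 𝓝 x := hcb.continuousAt.eventually_ne hb
  obtain ⟨N, hN, hNo, hxN⟩ := mem_nhds_iff.1 (inter_mem h1 h2)
  set f : ℂ → ℂ := fun z => ev v.1 z / ev v.2.1 z with hf
  have hd : ∀ z ∈ N, HasDerivAt f
      ((dv v.1 z * ev v.2.1 z - ev v.1 z * dv v.2.1 z) / (ev v.2.1 z) ^ 2) z := fun z hz =>
    (hasDerivAt_ev v.1 z).div (hasDerivAt_ev v.2.1 z) (hN hz).2
  have hinj : InjOn f N := by
    intro z hz z' hz' h
    have h3 : Gm v (z : Sph) = Gm v (z' : Sph) := by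
      rw [Gm_coe, Gm_coe, pt, pt, if_neg (hN hz).2, if_neg (hN hz').2]
      exact congrArg _ h
    exact OnePoint.coe_injective (hi (hN hz).1 (hN hz').1 h3)
  have h3 := Pool.Agent.H712R2.M.deriv_ne_zero_of_injOn' hNo
    (fun z hz => (hd z hz).differentiableAt.differentiableWithinAt) hinj hxN
  rw [(hd x hxN).deriv, hw, sub_self, zero_div] at h3
  exact h3 rfl

lemma form_one (a : Fin (d + 1) → ℂ) (x : ℂ) : form a x 1 = ev a x := by
  unfold form ev
  exact Finset.sum_congr rfl fun i _ => by rw [one_pow, mul_one]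

lemma form_infty (a : Fin (d + 1) → ℂ) : form a 1 0 = a (Fin.last d) := by
  unfold form
  rw [Fin.sum_univ_castSucc]
  have h1 : ∀ i : Fin d, a i.castSucc * 1 ^ ((i.castSucc : Fin (d + 1)) : ℕ) *
      (0 : ℂ) ^ (d - ((i.castSucc : Fin (d + 1)) : ℕ)) = 0 := by
    intro i
    have h2 : d - ((i.castSucc : Fin (d + 1)) : ℕ) ≠ 0 := by
      have := i.2
      simp only [Fin.val_castSucc]; omega
    rw [zero_pow h2, mul_zero]
  rw [Finset.sum_eq_zero fun i _ => h1 i]
  simp

lemma pt_one (x : ℂ) : pt x 1 = (x : Sph) := by simp [pt]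

lemma pt_zero (x : ℂ) : pt x 0 = ∞ := by simp [pt]

/-- **The normal form.** -/
theorem normal_form {G : Sph → Sph} (hG : IsRationalMap d G) (hfin : (postcrit G).Finite)
    (hinf : (∞ : Sph) ∈ postcrit G) (hm : (postcrit G).ncard = m + 1) :
    ∃ v : Par d m, Valid v ∧ Gm v = G ∧ P0 v.2.2 = postcrit G := by
  classical
  obtain ⟨a, b, hno, hG⟩ := hG
  -- the marked points
  set S : Set ℂ := (fun z : ℂ => (z : Sph)) ⁻¹' postcrit G with hS
  have hSfin : S.Finite := hfin.preimage OnePoint.coe_injective.injOn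
  have hPS : postcrit G = insert ∞ ((fun z : ℂ => (z : Sph)) '' S) := by
    ext x
    induction x using OnePoint.rec with
    | infty => exact ⟨fun _ => mem_insert _ _, fun _ => hinf⟩
    | coe z =>
      constructor
      · intro h; exact Or.inr ⟨z, h, rfl⟩
      · rintro (h | ⟨w, hw, hwz⟩)
        · exact absurd h (OnePoint.coe_ne_infty z)
        · rw [← hwz]; exact hw
  have hcard : S.ncard = m := by
    have h1 : (∞ : Sph) ∉ (fun z : ℂ => (z : Sph)) '' S := by
      rintro ⟨w, -, hw⟩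
      exact OnePoint.coe_ne_infty w hw
    rw [hPS, ncard_insert_of_notMem h1 (hSfin.image _),
      ncard_image_of_injective _ OnePoint.coe_injective] at hm
    omega
  have hcard' : hSfin.toFinset.card = m := by
    rw [← hcard, ncard_eq_toFinset_card S hSfin]
  let e := hSfin.toFinset.equivFinOfCardEq hcard'
  let p : Fin m → ℂ := fun i => (e.symm i).1
  have hpS : ∀ z, z ∈ S ↔ ∃ i, z = p i := by
    intro z
    constructor
    · intro hz
      have h1 : z ∈ hSfin.toFinset := hSfin.mem_toFinset.2 hz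
      refine ⟨e ⟨z, h1⟩, ?_⟩
      show z = (e.symm (e ⟨z, h1⟩)).1
      rw [e.symm_apply_apply]
    · rintro ⟨i, rfl⟩
      exact hSfin.mem_toFinset.1 (e.symm i).2
  let v : Par d m := (a, b, p)
  have hP : P0 p = postcrit G := by
    rw [hPS]
    unfold P0
    congr 1
    ext x
    constructor
    · rintro ⟨i, rfl⟩
      exact ⟨p i, (hpS _).2 ⟨i, rfl⟩, rfl⟩
    · rintro ⟨z, hz, rfl⟩
      obtain ⟨i, rfl⟩ := (hpS z).1 hz
      exact ⟨i, rfl⟩
  have hGv : Gm v = G := by
    funext x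
    induction x using OnePoint.rec with
    | infty =>
      rw [Gm_infty, ← form_infty v.1, ← form_infty v.2.1]
      show pt (form a 1 0) (form b 1 0) = _
      rw [← hG 1 0 (by simp), pt_zero]
    | coe z =>
      rw [Gm_coe, ← form_one v.1, ← form_one v.2.1]
      show pt (form a z 1) (form b z 1) = _
      rw [← hG z 1 (by simp), pt_one]
  have key : ∀ s t : ℂ, pt s t ∈ postcrit G → t = 0 ∨ ∃ i, s = p i * t := by
    intro s t h
    by_cases ht : t = 0
    · exact Or.inl ht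
    · right
      rw [pt, if_neg ht] at h
      obtain ⟨i, hi⟩ := (hpS _).1 h
      exact ⟨i, (div_eq_iff ht).1 hi⟩
  refine ⟨v, ⟨?_, ?_, ?_, ?_, ?_, ?_⟩, hGv, hP⟩
  · rintro x ⟨h1, h2⟩
    have := hno x 1 (by rw [form_one]; exact h1) (by rw [form_one]; exact h2)
    exact one_ne_zero this.2
  · rintro ⟨h1, h2⟩
    have := hno 1 0 (by rw [form_infty]; exact h1) (by rw [form_infty]; exact h2)
    exact one_ne_zero this.1
  · intro i j hij
    exact e.symm.injective (Subtype.ext hij)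
  · have h1 := postcrit_map hinf
    rw [← hGv, Gm_infty] at h1
    rw [hGv] at h1
    exact key _ _ h1
  · intro i
    have h1 : ((p i : ℂ) : Sph) ∈ postcrit G := (hpS _).2 ⟨i, rfl⟩
    have h2 := postcrit_map h1
    have h3 : G ((p i : ℂ) : Sph) = pt (ev a (p i)) (ev b (p i)) := by rw [← hGv, Gm_coe]
    rw [h3] at h2
    exact key _ _ h2
  · intro x hx
    by_cases hb : ev v.2.1 x = 0
    · exact Or.inl hb
    · have h1 := crit_of_wronskian v x hb hx
      rw [hGv] at h1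
      have h2 := crit_map h1
      have h3 : G ((x : ℂ) : Sph) = pt (ev a x) (ev b x) := by rw [← hGv, Gm_coe]
      rw [h3] at h2
      exact key _ _ h2

end Pool.Agent.J4.H71.TM
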