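import Mathlib

/-! The roots of polynomials with simple roots form a covering. -/

set_option autoImplicit false
set_option maxHeartbeats 4000000

open Set Topology Filter

namespace Pool.Agent.J4.H71.TM

/-- value of the polynomial with coefficients `f` -/
noncomputable def ev {d : ℕ} (f : Fin (d + 1) → ℂ) (x : ℂ) : ℂ := ∑ i, f i * x ^ (i : ℕ)

/-- value of the derivative -/
noncomputable def dv {d : ℕ} (f : Fin (d + 1) → ℂ) (x : ℂ) : ℂ :=
  ∑ i, f i * ((i : ℕ) * x ^ ((i : ℕ) - 1))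

variable {d : ℕ}

lemma ev_sub_smul (f g : Fin (d + 1) → ℂ) (y x : ℂ) :
    ev (fun i => f i - y * g i) x = ev f x - y * ev g x := by
  unfold ev
  rw [Finset.mul_sum, ← Finset.sum_sub_distrib]
  exact Finset.sum_congr rfl fun i _ => by ring

lemma dv_sub_smul (f g : Fin (d + 1) → ℂ) (y x : ℂ) :
    dv (fun i => f i - y * g i) x = dv f x - y * dv g x := by
  unfold dv
  rw [Finset.mul_sum, ← Finset.sum_sub_distrib]
  exact Finset.sum_congr rfl fun i _ => by ring

lemma continuous_ev : Continuous (fun q : (Fin (d + 1) → ℂ) × ℂ => ev q.1 q.2) := by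
  unfold ev; fun_prop

lemma continuous_dv : Continuous (fun q : (Fin (d + 1) → ℂ) × ℂ => dv q.1 q.2) := by
  unfold dv; fun_prop

/-- the linear form `(h, k) ↦ h(x₀) + f₀'(x₀) k` -/
noncomputable def linE (f : Fin (d + 1) → ℂ) (x : ℂ) : (Fin (d + 1) → ℂ) × ℂ →L[ℂ] ℂ :=
  ∑ i : Fin (d + 1), (x ^ (i : ℕ)) • ((ContinuousLinearMap.proj i).comp
    (ContinuousLinearMap.fst ℂ (Fin (d + 1) → ℂ) ℂ)) +
  (dv f x) • (ContinuousLinearMap.snd ℂ (Fin (d + 1) → ℂ) ℂ)

lemma linE_apply (f : Fin (d + 1) → ℂ) (x : ℂ) (q : (Fin (d + 1) → ℂ) × ℂ) :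
    linE f x q = ev q.1 x + dv f x * q.2 := by
  simp [linE, ev, mul_comm]

lemma hasStrict_ev (f : Fin (d + 1) → ℂ) (x : ℂ) :
    HasStrictFDerivAt (fun q : (Fin (d + 1) → ℂ) × ℂ => ev q.1 q.2) (linE f x) (f, x) := by
  have h1 : ∀ i : Fin (d + 1), HasStrictFDerivAt
      (fun q : (Fin (d + 1) → ℂ) × ℂ => q.1 i * q.2 ^ (i : ℕ))
      (f i • (((i : ℕ) * x ^ ((i : ℕ) - 1) : ℂ) • (ContinuousLinearMap.snd ℂ (Fin (d + 1) → ℂ) ℂ)) +
        (x ^ (i : ℕ)) • ((ContinuousLinearMap.proj i).comp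
          (ContinuousLinearMap.fst ℂ (Fin (d + 1) → ℂ) ℂ))) (f, x) := by
    intro i
    have h2 : HasStrictFDerivAt (fun q : (Fin (d + 1) → ℂ) × ℂ => q.1 i)
        ((ContinuousLinearMap.proj i).comp (ContinuousLinearMap.fst ℂ (Fin (d + 1) → ℂ) ℂ))
        (f, x) :=
      ((ContinuousLinearMap.proj i).comp
        (ContinuousLinearMap.fst ℂ (Fin (d + 1) → ℂ) ℂ)).hasStrictFDerivAt
    have h3 : HasStrictFDerivAt (fun q : (Fin (d + 1) → ℂ) × ℂ => q.2 ^ (i : ℕ))
        (((i : ℕ) * x ^ ((i : ℕ) - 1) : ℂ) • (ContinuousLinearMap.snd ℂ (Fin (d + 1) → ℂ) ℂ))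
        (f, x) := by
      have := (hasStrictDerivAt_pow (i : ℕ) x).comp_hasStrictFDerivAt (f, x)
        (ContinuousLinearMap.snd ℂ (Fin (d + 1) → ℂ) ℂ).hasStrictFDerivAt
      exact this
    exact h2.mul h3
  have h4 := HasStrictFDerivAt.fun_sum (u := Finset.univ) fun i _ => h1 i
  unfold ev
  refine h4.congr_fderiv ?_
  refine ContinuousLinearMap.ext fun q => ?_
  rw [linE_apply]
  simp only [sum_apply, ContinuousLinearMap.add_apply, ContinuousLinearMap.smul_apply,
    ContinuousLinearMap.comp_apply, ContinuousLinearMap.proj_apply,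
    ContinuousLinearMap.coe_fst', ContinuousLinearMap.coe_snd', smul_eq_mul,
    Finset.sum_add_distrib]
  unfold ev dv
  rw [Finset.sum_mul, add_comm]
  congr 1
  · exact Finset.sum_congr rfl fun i _ => by ring
  · exact Finset.sum_congr rfl fun i _ => by ring

/-- the total derivative of `(f, x) ↦ (f, f(x))` -/
noncomputable def totE (f : Fin (d + 1) → ℂ) (x : ℂ) (h : dv f x ≠ 0) :
    ((Fin (d + 1) → ℂ) × ℂ) ≃L[ℂ] ((Fin (d + 1) → ℂ) × ℂ) :=
  ContinuousLinearEquiv.equivOfInverse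
    ((ContinuousLinearMap.fst ℂ (Fin (d + 1) → ℂ) ℂ).prod (linE f x))
    ((ContinuousLinearMap.fst ℂ (Fin (d + 1) → ℂ) ℂ).prod
      ((dv f x)⁻¹ • ((ContinuousLinearMap.snd ℂ (Fin (d + 1) → ℂ) ℂ) -
        (linE f x).comp ((ContinuousLinearMap.fst ℂ (Fin (d + 1) → ℂ) ℂ).prod 0))))
    (by
      rintro ⟨g, k⟩
      refine Prod.ext rfl ?_
      simp only [ContinuousLinearMap.prod_apply, ContinuousLinearMap.smul_apply,
        ContinuousLinearMap.sub_apply, ContinuousLinearMap.comp_apply,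
        ContinuousLinearMap.coe_fst', ContinuousLinearMap.coe_snd', linE_apply, smul_eq_mul,
        ContinuousLinearMap.zero_apply]
      field_simp
      ring)
    (by
      rintro ⟨g, k⟩
      refine Prod.ext rfl ?_
      simp only [ContinuousLinearMap.prod_apply, ContinuousLinearMap.smul_apply,
        ContinuousLinearMap.sub_apply, ContinuousLinearMap.comp_apply,
        ContinuousLinearMap.coe_fst', ContinuousLinearMap.coe_snd', linE_apply, smul_eq_mul,
        ContinuousLinearMap.zero_apply]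
      field_simp
      ring)

lemma totE_apply (f : Fin (d + 1) → ℂ) (x : ℂ) (h : dv f x ≠ 0) (q) :
    totE f x h q = (q.1, linE f x q) := rfl

lemma hasStrict_tot (f : Fin (d + 1) → ℂ) (x : ℂ) (h : dv f x ≠ 0) :
    HasStrictFDerivAt (fun q : (Fin (d + 1) → ℂ) × ℂ => (q.1, ev q.1 q.2))
      (totE f x h : ((Fin (d + 1) → ℂ) × ℂ) →L[ℂ] ((Fin (d + 1) → ℂ) × ℂ)) (f, x) := by
  have h1 := (ContinuousLinearMap.fst ℂ (Fin (d + 1) → ℂ) ℂ).hasStrictFDerivAt (x := (f, x))
  exact (h1.prodMk (hasStrict_ev f x)).congr_fderiv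
    (ContinuousLinearMap.ext fun q => by rw [ContinuousLinearEquiv.coe_coe, totE_apply]; rfl)

/-- local structure near a simple root -/
lemma loc_root (f : Fin (d + 1) → ℂ) (x : ℂ) (h : dv f x ≠ 0) :
    ∃ e : OpenPartialHomeomorph ((Fin (d + 1) → ℂ) × ℂ) ((Fin (d + 1) → ℂ) × ℂ),
      (f, x) ∈ e.source ∧ ∀ q, e q = (q.1, ev q.1 q.2) :=
  ⟨(hasStrict_tot f x h).toOpenPartialHomeomorph _,
    (hasStrict_tot f x h).mem_toOpenPartialHomeomorph_source, fun _ => rfl⟩

/-- polynomials of degree exactly `d` with simple roots -/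
def Nice (f : Fin (d + 1) → ℂ) : Prop := f (Fin.last d) ≠ 0 ∧ ∀ x, ev f x = 0 → dv f x ≠ 0

/-- the base -/
def Ub (d : ℕ) : Type := {f : Fin (d + 1) → ℂ // Nice f}

instance : TopologicalSpace (Ub d) := inferInstanceAs (TopologicalSpace {f : Fin (d + 1) → ℂ // Nice f})

/-- the space of the roots -/
def Er (d : ℕ) : Type := {q : Ub d × ℂ // ev q.1.1 q.2 = 0}

instance : TopologicalSpace (Er d) :=
  inferInstanceAs (TopologicalSpace {q : Ub d × ℂ // ev q.1.1 q.2 = 0})

instance : T2Space (Ub d) := inferInstanceAs (T2Space {f : Fin (d + 1) → ℂ // Nice f})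

instance : T2Space (Er d) := inferInstanceAs (T2Space {q : Ub d × ℂ // ev q.1.1 q.2 = 0})

instance : FirstCountableTopology (Ub d) :=
  inferInstanceAs (FirstCountableTopology {f : Fin (d + 1) → ℂ // Nice f})

/-- the projection -/
def pr (d : ℕ) (q : Er d) : Ub d := q.1.1

lemma continuous_pr : Continuous (pr d) := continuous_fst.comp continuous_subtype_val

/-- the embedding of the space of the roots -/
def emb (d : ℕ) (q : Er d) : (Fin (d + 1) → ℂ) × ℂ := (q.1.1.1, q.1.2)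

lemma isEmbedding_emb : IsEmbedding (emb d) := by
  have h1 : IsEmbedding (fun q : Ub d × ℂ => ((q.1.1, q.2) : (Fin (d + 1) → ℂ) × ℂ)) :=
    IsEmbedding.subtypeVal.prodMap IsEmbedding.id
  exact h1.comp IsEmbedding.subtypeVal

lemma isOpenMap_pr : IsOpenMap (pr d) := by
  rw [isOpenMap_iff_nhds_le]
  intro q S hS
  obtain ⟨e, he, hee⟩ := loc_root q.1.1.1 q.1.2 (q.1.1.2.2 _ q.2)
  rw [Filter.mem_map, isEmbedding_emb.nhds_eq_comap, Filter.mem_comap] at hS
  obtain ⟨T, hT, hTS⟩ := hS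
  obtain ⟨T', hT'T, hT'o, hqT'⟩ := mem_nhds_iff.1 hT
  have hW : IsOpen (e '' (e.source ∩ T')) := e.isOpen_image_source_inter hT'o
  have h0 : IsOpen {f : Ub d | ((f.1, (0 : ℂ)) : (Fin (d + 1) → ℂ) × ℂ) ∈ e '' (e.source ∩ T')} :=
    hW.preimage (continuous_subtype_val.prodMk continuous_const)
  refine Filter.mem_of_superset (h0.mem_nhds ?_) ?_
  · exact ⟨(q.1.1.1, q.1.2), ⟨he, hqT'⟩, by rw [hee]; exact Prod.ext rfl q.2⟩
  · rintro f ⟨⟨g, y⟩, ⟨hg1, hg2⟩, hg3⟩
    rw [hee] at hg3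
    have h1 : g = f.1 := congrArg Prod.fst hg3
    have h2 : ev g y = 0 := congrArg Prod.snd hg3
    subst h1
    have h3 : (⟨(f, y), h2⟩ : Er d) ∈ (pr d) ⁻¹' S := hTS (hT'T hg2)
    exact h3

lemma isLocalHomeomorph_pr : IsLocalHomeomorph (pr d) := by
  rw [isLocalHomeomorph_iff_isOpenEmbedding_restrict]
  intro q
  obtain ⟨e, he, hee⟩ := loc_root q.1.1.1 q.1.2 (q.1.1.2.2 _ q.2)
  refine ⟨emb d ⁻¹' e.source, (e.open_source.preimage isEmbedding_emb.continuous).mem_nhds he, ?_⟩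
  refine IsOpenEmbedding.of_continuous_injective_isOpenMap
    (continuous_pr.comp continuous_subtype_val) ?_ ?_
  · rintro ⟨x, hx⟩ ⟨y, hy⟩ hxy
    have h1 : pr d x = pr d y := hxy
    have h2 : e (emb d x) = e (emb d y) := by
      rw [hee, hee]
      refine Prod.ext (congrArg Subtype.val h1) ?_
      exact x.2.trans y.2.symm
    exact Subtype.ext (isEmbedding_emb.injective (e.injOn hx hy h2))
  · exact isOpenMap_pr.comp
      (e.open_source.preimage isEmbedding_emb.continuous).isOpenMap_subtype_val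

/-- bound for the roots -/
lemma root_bound (f : Fin (d + 1) → ℂ) (hf : f (Fin.last d) ≠ 0) (x : ℂ) (hx : ev f x = 0) :
    ‖x‖ ≤ 1 + (∑ i, ‖f i‖) / ‖f (Fin.last d)‖ := by
  by_contra hcon
  push Not at hcon
  have hpos : 0 < ‖f (Fin.last d)‖ := norm_pos_iff.2 hf
  have hS : 0 ≤ ∑ i, ‖f i‖ := Finset.sum_nonneg fun i _ => norm_nonneg _
  have h1 : 1 < ‖x‖ := lt_of_le_of_lt (by
    have : 0 ≤ (∑ i, ‖f i‖) / ‖f (Fin.last d)‖ := div_nonneg hS hpos.le
    linarith) hcon
  unfold ev at hx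
  rw [Fin.sum_univ_castSucc] at hx
  have h2 : ‖f (Fin.last d)‖ * ‖x‖ ^ d ≤ (∑ i, ‖f i‖) * ‖x‖ ^ (d - 1) := by
    have h3 : f (Fin.last d) * x ^ d = - ∑ i : Fin d, f i.castSucc * x ^ (i : ℕ) := by
      simp only [Fin.val_castSucc, Fin.val_last] at hx
      linear_combination hx
    rw [← norm_pow, ← norm_mul, h3, norm_neg]
    refine (norm_sum_le _ _).trans ?_
    rw [Fin.sum_univ_castSucc, add_mul, Finset.sum_mul]
    refine le_trans (Finset.sum_le_sum (f := _) (g := fun i : Fin d => ‖f i.castSucc‖ *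
      ‖x‖ ^ (d - 1)) fun i _ => ?_) (le_add_of_nonneg_right (by positivity))
    rw [norm_mul, norm_pow]
    refine mul_le_mul_of_nonneg_left (pow_le_pow_right₀ h1.le (by omega)) (norm_nonneg _)
  rcases Nat.eq_zero_or_pos d with hd | hd
  · subst hd
    simp at hx
    exact hf hx
  · have h4 : ‖x‖ ^ d = ‖x‖ ^ (d - 1) * ‖x‖ := by
      rw [← pow_succ]; congr 1; omega
    rw [h4, ← mul_assoc, mul_comm _ (‖x‖ ^ (d - 1)), mul_assoc, mul_comm (∑ i, ‖f i‖)] at h2
    have h5 := le_of_mul_le_mul_left h2 (pow_pos (by linarith) _)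
    have h6 : ‖x‖ ≤ (∑ i, ‖f i‖) / ‖f (Fin.last d)‖ := by
      rw [le_div_iff₀ hpos]; linarith
    linarith

lemma isClosedMap_pr : IsClosedMap (pr d) := by
  intro Z hZ
  apply IsSeqClosed.isClosed
  intro u f hu hf
  choose q hqZ hq using hu
  -- the roots are bounded
  have hlead : Continuous (fun f : Ub d => 1 + (∑ i, ‖f.1 i‖) / ‖f.1 (Fin.last d)‖) := by
    refine continuous_const.add (Continuous.div ?_ ?_ fun f => ?_)
    · exact continuous_finset_sum _ fun i _ =>
        ((continuous_apply i).comp continuous_subtype_val).norm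
    · exact ((continuous_apply _).comp continuous_subtype_val).norm
    · exact norm_ne_zero_iff.2 f.2.1
  have hb : Tendsto (fun n => 1 + (∑ i, ‖(u n).1 i‖) / ‖(u n).1 (Fin.last d)‖) atTop
      (𝓝 (1 + (∑ i, ‖f.1 i‖) / ‖f.1 (Fin.last d)‖)) := (hlead.tendsto f).comp hf
  obtain ⟨R, hR⟩ := hb.bddAbove_range
  have hball : ∀ n, (q n).1.2 ∈ Metric.closedBall (0 : ℂ) R := by
    intro n
    rw [mem_closedBall_zero_iff]
    refine (root_bound (q n).1.1.1 (q n).1.1.2.1 _ (q n).2).trans ?_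
    have h1 : (q n).1.1 = u n := hq n
    rw [h1]
    exact hR ⟨n, rfl⟩
  obtain ⟨x, -, φ, hφ, hx⟩ := (isCompact_closedBall (0 : ℂ) R).tendsto_subseq hball
  have hroot : ev f.1 x = 0 := by
    have h1 : Tendsto (fun n => ev (u (φ n)).1 (q (φ n)).1.2) atTop (𝓝 (ev f.1 x)) := by
      have h2 := (continuous_ev (d := d)).tendsto (f.1, x)
      refine h2.comp (Tendsto.prodMk_nhds ?_ hx)
      exact (continuous_subtype_val.tendsto f).comp (hf.comp hφ.tendsto_atTop)
    have h3 : ∀ n, ev (u (φ n)).1 (q (φ n)).1.2 = 0 := by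
      intro n
      have h1 : (q (φ n)).1.1 = u (φ n) := hq (φ n)
      rw [← h1]
      exact (q (φ n)).2
    simp only [h3] at h1
    exact tendsto_nhds_unique h1 tendsto_const_nhds |>.symm ▸ rfl
  let w : Er d := ⟨(f, x), hroot⟩
  have hlim : Tendsto (fun n => q (φ n)) atTop (𝓝 w) := by
    have h0 : IsEmbedding (Subtype.val : Er d → Ub d × ℂ) := IsEmbedding.subtypeVal
    refine h0.tendsto_nhds_iff.2 ?_
    have h1 : (fun n => (q (φ n)).1.1) = u ∘ φ := by
      funext n; exact hq (φ n)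
    have h2 : Tendsto (fun n => (q (φ n)).1.1) atTop (𝓝 f) := by
      rw [h1]
      exact hf.comp hφ.tendsto_atTop
    exact Tendsto.prodMk_nhds h2 hx
  have hw : w ∈ Z := hZ.mem_of_tendsto hlim (Filter.Eventually.of_forall fun n => hqZ _)
  exact ⟨w, hw, rfl⟩

lemma finite_roots (f : Fin (d + 1) → ℂ) (hf : f (Fin.last d) ≠ 0) : {x : ℂ | ev f x = 0}.Finite := by
  classical
  let p : Polynomial ℂ := ∑ i : Fin (d + 1), Polynomial.monomial (i : ℕ) (f i)
  have hp : p ≠ 0 := by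
    intro h
    have h1 : p.coeff d = f (Fin.last d) := by
      simp only [p, Polynomial.finset_sum_coeff, Polynomial.coeff_monomial]
      rw [Finset.sum_eq_single (Fin.last d)]
      · simp
      · intro i _ hi
        rw [if_neg]
        intro h2
        exact hi (Fin.ext h2)
      · simp
    rw [h] at h1
    exact hf (by simpa using h1.symm)
  refine (p.roots.toFinset.finite_toSet).subset fun x hx => ?_
  simp only [Finset.mem_coe, Multiset.mem_toFinset, Polynomial.mem_roots hp, Polynomial.IsRoot]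
  simp only [p, Polynomial.eval_finset_sum, Polynomial.eval_monomial]
  exact hx

theorem isCoveringMap_pr : IsCoveringMap (pr d) := by
  rw [isCoveringMap_iff_isCoveringMapOn_univ]
  refine isClosedMap_pr.isCoveringMapOn_of_isLocalHomeomorphOn (fun f _ => ?_) ?_
  · refine Set.Finite.of_finite_image (f := fun q : Er d => q.1.2) ((finite_roots f.1 f.2.1).subset ?_) ?_
    · rintro _ ⟨q, hq, rfl⟩
      have h1 : q.1.1 = f := hq
      show ev f.1 q.1.2 = 0
      rw [← h1]
      exact q.2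
    · intro q hq q' hq' h
      have h1 : q.1.1 = f := hq
      have h2 : q'.1.1 = f := hq'
      exact Subtype.ext (Prod.ext (h1.trans h2.symm) h)
  · exact isLocalHomeomorph_pr.isLocalHomeomorphOn

end Pool.Agent.J4.H71.TM
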